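import Mathlib
import Pool.Agent.ETS.Reg

/-!
# E-T (MP_12a1af_nt), project T*: the random sets of the windows, properties

Data of the windows: `w K` bottom of the window of scale `K`, `hc K` length of the composite part
(`0` if the window is plain), `ew K` index of its block width.  The random part of the window is
`[w K + hc K, K)`.
-/

open Finset

namespace Pool.Agent.ETS.TKS

/-- the residues of the contents of the regions `RTh e b (b + l)` -/
def Rs (C : Codes) (e l : ℕ) : Finset ℕ :=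
  (pairs (C.Y (l - C.W e)) (C.Th e)).image
    (fun q => (C.E l (Nat.unpair q).1 + (Nat.unpair q).2) % 2 ^ l)

open Classical in
/-- **Properties of the random sets of the windows.**  `R e l` are the residues of the regions
`RTh` of length `l`, `M K D` is the bound of the number of pairs at distance `D`, `L K` a bound for
the windows at `K`. -/
structure TKGood (w hc ew : ℕ → ℕ) (R : ℕ → ℕ → Finset ℕ) (ok : ℕ → ℕ → Prop) (K1 : ℕ)
    (L : ℕ → ℕ) (M : ℕ → ℕ → ℕ) (TK : ℕ → Finset ℕ) : Prop where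
  /-- the random set is contained in `[0, 2 ^ ρ)`, `ρ = K - (w K + hc K)` -/
  lt : ∀ K, K1 ≤ K → ∀ t ∈ TK K, t < 2 ^ (K - (w K + hc K))
  card : ∀ K, K1 ≤ K → (TK K).card = 2 ^ ((K - (w K + hc K)) / 2)
  /-- sums of two elements of the same scale -/
  self : ∀ K, K1 ≤ K → ∀ s,
    ((TK K ×ˢ TK K).filter (fun q => q.1 + q.2 = s)).card ≤ M K 0
  /-- the random parts of two scales -/
  pp : ∀ K K', K1 ≤ K' → K' < K → w K' + hc K' ≤ w K + hc K → w K + hc K ≤ K' → ∀ κ κ' ν,
    ((TK K ×ˢ TK K').filter (fun q =>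
      2 ^ (w K + hc K - (w K' + hc K')) * ((q.1 + κ) % 2 ^ (K - (w K + hc K))) +
        (q.2 + κ') % 2 ^ (K' - (w K' + hc K')) = ν)).card ≤ M K (K - K')
  /-- a composite window at `K` and the random part at `K'` -/
  cp : ∀ K K', K1 ≤ K' → K' < K → 0 < hc K → w K' + hc K' ≤ w K → w K ≤ K' → ∀ κ κ' ν,
    ((R (ew K) (hc K) ×ˢ (TK K ×ˢ TK K')).filter (fun q =>
      2 ^ (w K - (w K' + hc K')) * ((q.1 + 2 ^ hc K * q.2.1 + κ) % 2 ^ (K - w K)) +
        (q.2.2 + κ') % 2 ^ (K' - (w K' + hc K')) = ν)).card ≤ M K (K - K')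
  /-- an `RTh` region `[b, b + l)` against the random part at `K'` -/
  far : ∀ K', K1 ≤ K' → ∀ e b l, ok e l → w K' + hc K' ≤ b → b + l ≤ K' → ∀ κ κ' ν,
    ((R e l ×ˢ TK K').filter (fun q =>
      2 ^ (b - (w K' + hc K')) * ((q.1 + κ) % 2 ^ l) +
        (q.2 + κ') % 2 ^ (K' - (w K' + hc K')) ≡ ν [MOD 2 ^ (b + l - (w K' + hc K'))])).card ≤
      8 * ((R e l).card * 2 ^ (K' - (b + l))) /
        2 ^ (K' - (w K' + hc K') - (K' - (w K' + hc K')) / 2) + L K'

end Pool.Agent.ETS.TKS
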