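import Mathlib

/-!
# E-T (MP_12a1af_nt), project T*: random sets with finitely many constraints

The random set is the graph `{u + n * φ u : u < n}` of a function; the function is chosen value by
value such that a potential does not increase.
-/

open Finset

namespace Pool.Agent.ETS.TKS

open Classical in
/-- values `φ 0, φ 1, ..., φ (N - 1) < n'` can be chosen such that for every constraint `i` the
number of the bad values is smaller than `m i` -/
theorem greedy {ι : Type*} (I : Finset ι) (n' N : ℕ) (hn' : 0 < n')
    (bad : ι → (ℕ → ℕ) → ℕ → ℕ → Prop)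
    (hloc : ∀ i φ φ' u v, (∀ x < u, φ x = φ' x) → (bad i φ u v ↔ bad i φ' u v))
    (b : ι → ℕ → ℕ)
    (hb : ∀ i ∈ I, ∀ φ, ∀ u < N, ((range n').filter (fun v => bad i φ u v)).card ≤ b i u)
    (z : ι → ℝ) (hz : ∀ i ∈ I, 1 ≤ z i) (m : ι → ℕ)
    (hsum : ∑ i ∈ I, Real.exp ((z i - 1) * (∑ u ∈ range N, (b i u : ℝ)) / n') / z i ^ m i < 1) :
    ∃ φ : ℕ → ℕ, (∀ u < N, φ u < n') ∧
      ∀ i ∈ I, ((range N).filter (fun u => bad i φ u (φ u))).card < m i := by
  have hn0 : (0:ℝ) < n' := by exact_mod_cast hn'
  -- the potential
  set cnt : ι → (ℕ → ℕ) → ℕ → ℕ := fun i φ k =>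
    ((range k).filter (fun u => bad i φ u (φ u))).card with hcnt
  set a : ι → ℕ → ℝ := fun i k =>
    Real.exp ((z i - 1) * (∑ u ∈ Ico k N, (b i u : ℝ)) / n') / z i ^ m i with ha
  have hcongr : ∀ i φ φ' k, (∀ x < k, φ x = φ' x) → cnt i φ k = cnt i φ' k := by
    intro i φ φ' k h
    simp only [hcnt]
    congr 1
    apply filter_congr
    intro u hu
    rw [mem_range] at hu
    rw [hloc i φ φ' u (φ u) (fun x hx => h x (by omega)), h u hu]
  have key : ∀ k ≤ N, ∃ φ : ℕ → ℕ, (∀ u < k, φ u < n') ∧
      ∑ i ∈ I, a i k * z i ^ cnt i φ k < 1 := by
    intro k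
    induction k with
    | zero =>
      intro _
      refine ⟨fun _ => 0, by simp, ?_⟩
      simp only [hcnt, ha, range_zero, filter_empty, card_empty, pow_zero, mul_one]
      rw [← range_eq_Ico]
      exact hsum
    | succ k ih =>
      intro hk
      obtain ⟨φ, h1, h2⟩ := ih (by omega)
      have hsucc : ∀ i v, cnt i (Function.update φ k v) (k + 1) =
          cnt i φ k + if bad i φ k v then 1 else 0 := by
        intro i v
        have e1 : cnt i (Function.update φ k v) (k + 1) = cnt i (Function.update φ k v) k +
            if bad i (Function.update φ k v) k (Function.update φ k v k) then 1 else 0 := by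
          simp only [hcnt]
          rw [range_add_one, filter_insert]
          split_ifs with h
          · rw [card_insert_of_notMem (by simp)]
          · rfl
        rw [e1, hcongr i (Function.update φ k v) φ k (fun x hx => by
          rw [Function.update_of_ne (by omega)]), Function.update_self]
        congr 1
        have : bad i (Function.update φ k v) k v ↔ bad i φ k v :=
          hloc i _ _ k v (fun x hx => by rw [Function.update_of_ne (by omega)])
        simp only [this]
      -- average over the value
      have havg : ∑ v ∈ range n', ∑ i ∈ I, a i (k+1) * z i ^ cnt i (Function.update φ k v) (k + 1) ≤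
          n' * ∑ i ∈ I, a i k * z i ^ cnt i φ k := by
        rw [sum_comm, mul_sum]
        apply sum_le_sum
        intro i hi
        have hz1 := hz i hi
        have hz0 : 0 < z i := by linarith
        have e2 : ∑ v ∈ range n', a i (k+1) * z i ^ cnt i (Function.update φ k v) (k + 1) =
            a i (k+1) * z i ^ cnt i φ k * ∑ v ∈ range n', (if bad i φ k v then z i else 1) := by
          rw [mul_sum]
          apply sum_congr rfl
          intro v _
          rw [hsucc]
          split_ifs with h
          · rw [pow_succ]; ring
          · rw [add_zero, mul_one]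
        rw [e2]
        have e3 : ∑ v ∈ range n', (if bad i φ k v then z i else 1) ≤
            n' * Real.exp ((z i - 1) * b i k / n') := by
          have e4 : ∑ v ∈ range n', (if bad i φ k v then z i else 1) =
              n' + (z i - 1) * ((range n').filter (fun v => bad i φ k v)).card := by
            have : ∀ v, (if bad i φ k v then z i else 1) = 1 + (z i - 1) *
                (if bad i φ k v then 1 else 0) := by
              intro v; split_ifs <;> ring
            simp only [this]
            rw [sum_add_distrib, ← mul_sum, sum_boole, sum_const, card_range, nsmul_eq_mul,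
              mul_one]
          rw [e4]
          have e5 := hb i hi φ k (by omega)
          have e6 : (((range n').filter (fun v => bad i φ k v)).card : ℝ) ≤ b i k := by
            exact_mod_cast e5
          have e7 : (z i - 1) * ((range n').filter (fun v => bad i φ k v)).card ≤
              (z i - 1) * b i k := mul_le_mul_of_nonneg_left e6 (by linarith)
          have e8 := Real.add_one_le_exp ((z i - 1) * b i k / n')
          have e9 : (n':ℝ) * ((z i - 1) * b i k / n' + 1) = n' + (z i - 1) * b i k := by
            field_simp; ring
          calc _ ≤ (n':ℝ) + (z i - 1) * b i k := by linarith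
            _ = n' * ((z i - 1) * b i k / n' + 1) := e9.symm
            _ ≤ _ := mul_le_mul_of_nonneg_left e8 hn0.le
        have e10 : a i (k+1) * Real.exp ((z i - 1) * b i k / n') = a i k := by
          simp only [ha]
          rw [Finset.sum_eq_sum_Ico_succ_bot (show k < N by omega)]
          rw [div_mul_eq_mul_div, ← Real.exp_add]
          congr 2
          ring
        have hpos : 0 ≤ a i (k+1) * z i ^ cnt i φ k := by
          simp only [ha]; positivity
        calc _ ≤ a i (k+1) * z i ^ cnt i φ k * (n' * Real.exp ((z i - 1) * b i k / n')) :=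
              mul_le_mul_of_nonneg_left e3 hpos
          _ = n' * (a i (k+1) * Real.exp ((z i - 1) * b i k / n') * z i ^ cnt i φ k) := by ring
          _ = _ := by rw [e10]
      have hex : ∃ v ∈ range n', ∑ i ∈ I, a i (k+1) *
          z i ^ cnt i (Function.update φ k v) (k + 1) < 1 := by
        by_contra hne
        push Not at hne
        have h3 : (n':ℝ) ≤ ∑ v ∈ range n', ∑ i ∈ I, a i (k+1) *
            z i ^ cnt i (Function.update φ k v) (k + 1) := by
          calc (n':ℝ) = ∑ _v ∈ range n', (1:ℝ) := by simp
            _ ≤ _ := sum_le_sum hne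
        have h4 : (n':ℝ) * ∑ i ∈ I, a i k * z i ^ cnt i φ k < n' * 1 :=
          mul_lt_mul_of_pos_left h2 hn0
        linarith
      obtain ⟨v, hv, hv2⟩ := hex
      refine ⟨Function.update φ k v, ?_, hv2⟩
      intro u hu
      rcases Nat.lt_succ_iff_lt_or_eq.mp hu with h | h
      · rw [Function.update_of_ne (by omega)]; exact h1 u h
      · rw [h, Function.update_self]; exact mem_range.mp hv
  obtain ⟨φ, h1, h2⟩ := key N le_rfl
  refine ⟨φ, h1, ?_⟩
  intro i hi
  by_contra hne
  push Not at hne
  have hz1 := hz i hi
  have hz0 : 0 < z i := by linarith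
  have h3 : 1 ≤ a i N * z i ^ cnt i φ N := by
    simp only [ha, Ico_self, sum_empty, mul_zero, zero_div, Real.exp_zero]
    rw [div_mul_eq_mul_div, one_mul, le_div_iff₀ (by positivity), one_mul]
    exact pow_le_pow_right₀ hz1 hne
  have h4 : a i N * z i ^ cnt i φ N ≤ ∑ i ∈ I, a i N * z i ^ cnt i φ N := by
    apply single_le_sum (f := fun i => a i N * z i ^ cnt i φ N) _ hi
    intro j hj
    have : 0 < z j := by linarith [hz j hj]
    simp only [ha]; positivity
  linarith

end Pool.Agent.ETS.TKS
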