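import Mathlib
import Pool.Agent.Helper84.ET.TK1

/-!
# E-T (MP_12a1af_nt), project T*: one random set in `[0, 2 ^ ρ)`
-/

open Finset

namespace Pool.Agent.ETS.TKS

lemma graph_inj {n u u' v v' : ℕ} (hu : u < n) (hu' : u' < n) (h : u + n * v = u' + n * v') :
    u = u' ∧ v = v' := by
  have h1 : (u + n * v) % n = (u' + n * v') % n := by rw [h]
  rw [Nat.add_mul_mod_self_left, Nat.add_mul_mod_self_left, Nat.mod_eq_of_lt hu,
    Nat.mod_eq_of_lt hu'] at h1
  subst h1
  have h2 : n * v = n * v' := by omega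
  exact ⟨rfl, Nat.eq_of_mul_eq_mul_left (by omega) h2⟩

lemma exp_half_le (m : ℕ) : Real.exp (m / 2) ≤ 2 ^ m := by
  have h1 : Real.exp (1 / 2) ≤ 2 := by
    have h2 : Real.exp (1 / 2) ^ 2 = Real.exp 1 := by
      rw [← Real.exp_nat_mul]; norm_num
    have h3 := Real.exp_one_lt_d9
    have h4 := Real.exp_pos (1 / 2)
    nlinarith
  calc Real.exp (m / 2) = Real.exp (1 / 2) ^ m := by
        rw [← Real.exp_nat_mul]; congr 1; ring
    _ ≤ 2 ^ m := pow_le_pow_left₀ (Real.exp_pos _).le h1 m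

lemma exp_three_le : Real.exp 3 ≤ 32 := by
  have h1 := Real.exp_one_lt_d9
  have h2 : Real.exp 3 = Real.exp 1 ^ 3 := by
    rw [← Real.exp_nat_mul]; norm_num
  rw [h2]
  have h3 := Real.exp_pos 1
  calc Real.exp 1 ^ 3 ≤ 3 ^ 3 := pow_le_pow_left₀ h3.le (by linarith) 3
    _ ≤ 32 := by norm_num

lemma num1 (m d U : ℕ) (S q x : ℝ) (hx : 0 < x) (hS0 : 0 ≤ S) (hSq : S ≤ q)
    (h : 2 ^ (d + 3) * q ≤ m * x) (h2 : U + 1 ≤ m * (d + 1)) :
    Real.exp ((2 ^ (d + 2) - 1) * S / x) / (2 ^ (d + 2)) ^ m ≤ 1 / 2 ^ (U + 1) := by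
  have e8 : (1:ℝ) ≤ 2 ^ (d + 2) := one_le_pow₀ (by norm_num)
  have e7 : ((2:ℝ) ^ (d + 2) - 1) * S / x ≤ m / 2 := by
    rw [div_le_div_iff₀ hx (by norm_num)]
    have e9 : ((2:ℝ) ^ (d + 2) - 1) * S ≤ 2 ^ (d + 2) * q :=
      mul_le_mul (by linarith) hSq hS0 (by positivity)
    have e10 : (2:ℝ) ^ (d + 3) = 2 ^ (d + 2) * 2 := by rw [← pow_succ]
    rw [e10] at h
    linarith
  have e11 : Real.exp (((2:ℝ) ^ (d + 2) - 1) * S / x) ≤ 2 ^ m :=
    (Real.exp_le_exp.mpr e7).trans (exp_half_le _)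
  rw [div_le_div_iff₀ (by positivity) (by positivity), one_mul]
  have e12 : (2:ℝ) ^ (U + 1) ≤ 2 ^ (m * (d + 1)) := pow_le_pow_right₀ (by norm_num) h2
  have e13 : ((2:ℝ) ^ (d + 2)) ^ m = 2 ^ m * 2 ^ (m * (d + 1)) := by
    rw [← pow_add, ← pow_mul]; congr 1; ring
  rw [e13]
  exact mul_le_mul e11 e12 (by positivity) (by positivity)

lemma num2 (ρ : ℕ) (n x : ℝ) (hx : 0 < x) (h : n ≤ x) :
    2 ^ (ρ + 1) * (Real.exp ((4 - 1) * (n * 1) / x) / 4 ^ (ρ + 4)) ≤ 1 / 4 := by
  have e3 : Real.exp ((4 - 1) * (n * 1) / x) ≤ 32 := by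
    refine le_trans (Real.exp_le_exp.mpr ?_) exp_three_le
    rw [div_le_iff₀ hx]
    linarith
  have e4 : (2:ℝ) ^ (ρ + 1) * (Real.exp ((4 - 1) * (n * 1) / x) / 4 ^ (ρ + 4)) ≤
      2 ^ (ρ + 1) * (32 / 4 ^ (ρ + 4)) := by
    apply mul_le_mul_of_nonneg_left _ (by positivity)
    exact div_le_div_of_nonneg_right e3 (by positivity)
  refine e4.trans ?_
  have e5 : (4:ℝ) ^ (ρ + 4) = 2 ^ ρ * 2 ^ ρ * 256 := by
    rw [pow_add, show (4:ℝ) = 2 * 2 by norm_num, mul_pow]; norm_num
  rw [e5, pow_succ]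
  have e6 : (1:ℝ) ≤ 2 ^ ρ := one_le_pow₀ (by norm_num)
  have e7 : (0:ℝ) < 2 ^ ρ := by positivity
  rw [mul_div_assoc', div_le_div_iff₀ (by positivity) (by norm_num)]
  nlinarith

open Classical in
/-- a set `T ⊆ [0, 2 ^ ρ)` with `2 ^ (ρ / 2)` elements, with less than `m` elements in every set `Q`
for finitely many triples `(Q, m, d)`, and with few representations of every sum -/
theorem exists_set (ρ U : ℕ) (CC : Finset (Finset ℕ × ℕ × ℕ)) (hU : CC.card ≤ 2 ^ U)
    (h1 : ∀ c ∈ CC, 2 ^ (c.2.2 + 3) * c.1.card ≤ c.2.1 * 2 ^ (ρ - ρ / 2))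
    (h2 : ∀ c ∈ CC, U + 1 ≤ c.2.1 * (c.2.2 + 1)) :
    ∃ T : Finset ℕ, (∀ t ∈ T, t < 2 ^ ρ) ∧ T.card = 2 ^ (ρ / 2) ∧
      (∀ c ∈ CC, (T ∩ c.1).card < c.2.1) ∧
      ∀ s, ((T ×ˢ T).filter (fun q => q.1 + q.2 = s)).card ≤ 2 * (ρ + 4) := by
  obtain ⟨n, hn⟩ : ∃ n, n = 2 ^ (ρ / 2) := ⟨_, rfl⟩
  obtain ⟨n', hn'⟩ : ∃ n', n' = 2 ^ (ρ - ρ / 2) := ⟨_, rfl⟩
  rw [← hn'] at h1
  rw [← hn]
  have hn0 : 0 < n := by rw [hn]; positivity
  have hn'0 : 0 < n' := by rw [hn']; positivity
  have hnn : n * n' = 2 ^ ρ := by rw [hn, hn', ← pow_add]; congr 1; omega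
  have hle : n ≤ n' := by rw [hn, hn']; exact Nat.pow_le_pow_right (by norm_num) (by omega)
  set bad : (Finset ℕ × ℕ × ℕ) ⊕ ℕ → (ℕ → ℕ) → ℕ → ℕ → Prop := fun i φ u v =>
    match i with
    | Sum.inl c => u + n * v ∈ c.1
    | Sum.inr s => ∃ x < u, (x + n * φ x) + (u + n * v) = s with hbad
  set b : (Finset ℕ × ℕ × ℕ) ⊕ ℕ → ℕ → ℕ := fun i u =>
    match i with
    | Sum.inl c => ((range n').filter (fun v => u + n * v ∈ c.1)).card
    | Sum.inr _ => 1 with hb
  set z : (Finset ℕ × ℕ × ℕ) ⊕ ℕ → ℝ := fun i =>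
    match i with
    | Sum.inl c => 2 ^ (c.2.2 + 2)
    | Sum.inr _ => 4 with hz
  set m : (Finset ℕ × ℕ × ℕ) ⊕ ℕ → ℕ := fun i =>
    match i with
    | Sum.inl c => c.2.1
    | Sum.inr _ => ρ + 4 with hm
  set I : Finset ((Finset ℕ × ℕ × ℕ) ⊕ ℕ) := CC.disjSum (range (2 ^ (ρ + 1))) with hI
  have hn'R : (0:ℝ) < n' := by exact_mod_cast hn'0
  have hsum : ∑ i ∈ I, Real.exp ((z i - 1) * (∑ u ∈ range n, (b i u : ℝ)) / n') / z i ^ m i < 1 := by
    rw [hI, sum_disjSum]
    have e1 : ∑ c ∈ CC, Real.exp ((z (Sum.inl c) - 1) * (∑ u ∈ range n, (b (Sum.inl c) u : ℝ)) / n') /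
        z (Sum.inl c) ^ m (Sum.inl c) ≤ 1 / 2 := by
      have e2 : ∀ c ∈ CC, Real.exp ((z (Sum.inl c) - 1) *
          (∑ u ∈ range n, (b (Sum.inl c) u : ℝ)) / n') / z (Sum.inl c) ^ m (Sum.inl c) ≤
          1 / 2 ^ (U + 1) := by
        intro c hc
        simp only [hz, hb, hm]
        have e3 : ∑ u ∈ range n, (((range n').filter (fun v => u + n * v ∈ c.1)).card : ℝ) ≤
            c.1.card := by
          have e4 : ∑ u ∈ range n, ((range n').filter (fun v => u + n * v ∈ c.1)).card ≤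
              c.1.card := by
            rw [← card_sigma]
            apply card_le_card_of_injOn (fun q => q.1 + n * q.2)
            · intro q hq
              rw [mem_coe, mem_sigma, mem_filter] at hq
              exact hq.2.2
            · intro q hq q' hq' h
              rw [mem_coe, mem_sigma] at hq hq'
              obtain ⟨h3, h4⟩ := graph_inj (mem_range.mp hq.1) (mem_range.mp hq'.1) h
              exact Sigma.ext h3 (heq_of_eq h4)
          exact_mod_cast e4
        have e5 := h1 c hc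
        have e6 : (2:ℝ) ^ (c.2.2 + 3) * c.1.card ≤ c.2.1 * n' := by exact_mod_cast e5
        exact num1 c.2.1 c.2.2 U _ _ _ hn'R (sum_nonneg (fun _ _ => Nat.cast_nonneg _)) e3 e6 (h2 c hc)
      calc _ ≤ ∑ _c ∈ CC, (1:ℝ) / 2 ^ (U + 1) := sum_le_sum e2
        _ = CC.card * (1 / 2 ^ (U + 1)) := by rw [sum_const, nsmul_eq_mul]
        _ ≤ 2 ^ U * (1 / 2 ^ (U + 1)) := by
          apply mul_le_mul_of_nonneg_right _ (by positivity)
          exact_mod_cast hU
        _ = 1 / 2 := by rw [pow_succ]; field_simp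
    have e2 : ∑ s ∈ range (2 ^ (ρ + 1)), Real.exp ((z (Sum.inr s) - 1) *
        (∑ u ∈ range n, (b (Sum.inr s) u : ℝ)) / n') / z (Sum.inr s) ^ m (Sum.inr s) ≤ 1 / 4 := by
      simp only [hz, hb, hm]
      rw [sum_const, card_range, nsmul_eq_mul, sum_const, card_range, nsmul_eq_mul]
      have e3 : (n:ℝ) ≤ n' := by exact_mod_cast hle
      have e4 := num2 ρ n n' hn'R e3
      push_cast
      exact e4
    linarith
  obtain ⟨φ, hφ, hcnt⟩ := greedy I n' n hn'0 bad (by
      intro i φ φ' u v h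
      cases i with
      | inl c => simp only [hbad]
      | inr s =>
        simp only [hbad]
        constructor
        · rintro ⟨x, hx, h3⟩; exact ⟨x, hx, by rw [← h x hx]; exact h3⟩
        · rintro ⟨x, hx, h3⟩; exact ⟨x, hx, by rw [h x hx]; exact h3⟩) b (by
      intro i _ φ u hu
      cases i with
      | inl c => simp only [hbad, hb]; exact le_rfl
      | inr s =>
        simp only [hbad, hb]
        rw [card_le_one]
        intro v hv v' hv'
        rw [mem_filter] at hv hv'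
        obtain ⟨-, x, hx, h3⟩ := hv
        obtain ⟨-, x', hx', h3'⟩ := hv'
        have h4 : x + n * (φ x + v) = x' + n * (φ x' + v') := by
          rw [mul_add, mul_add]; omega
        obtain ⟨h5, h6⟩ := graph_inj (by omega) (by omega) h4
        rw [h5] at h6
        omega) z (by
      intro i _
      cases i with
      | inl c => simp only [hz]; exact one_le_pow₀ (by norm_num)
      | inr s => simp only [hz]; norm_num) m hsum
  refine ⟨(range n).image (fun u => u + n * φ u), ?_, ?_, ?_, ?_⟩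
  · intro t ht
    rw [mem_image] at ht
    obtain ⟨u, hu, rfl⟩ := ht
    rw [mem_range] at hu
    have h3 := hφ u hu
    calc u + n * φ u < n + n * φ u := by omega
      _ = n * (φ u + 1) := by ring
      _ ≤ n * n' := Nat.mul_le_mul_left _ h3
      _ = 2 ^ ρ := hnn
  · rw [card_image_of_injOn, card_range]
    intro u hu u' hu' h
    rw [coe_range, Set.mem_Iio] at hu hu'
    exact (graph_inj hu hu' h).1
  · intro c hc
    have h3 := hcnt (Sum.inl c) (by rw [hI, inl_mem_disjSum]; exact hc)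
    simp only [hbad, hm] at h3
    refine lt_of_le_of_lt ?_ h3
    refine le_trans (card_le_card ?_) (card_image_le (f := fun u => u + n * φ u))
    intro t ht
    rw [mem_inter, mem_image] at ht
    obtain ⟨⟨u, hu, rfl⟩, h4⟩ := ht
    exact mem_image_of_mem _ (mem_filter.mpr ⟨hu, h4⟩)
  · intro s
    rcases lt_or_ge s (2 ^ (ρ + 1)) with hs | hs
    · have h3 := hcnt (Sum.inr s) (by rw [hI, inr_mem_disjSum]; exact mem_range.mpr hs)
      simp only [hbad, hm] at h3
      set B := (range n).filter (fun u => ∃ x < u, (x + n * φ x) + (u + n * φ u) = s) with hB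
      set A := ((range n) ×ˢ (range n)).filter (fun q => (q.1 + n * φ q.1) + (q.2 + n * φ q.2) = s)
        with hA
      have h4 : (((range n).image (fun u => u + n * φ u) ×ˢ
          (range n).image (fun u => u + n * φ u)).filter (fun q => q.1 + q.2 = s)).card ≤ A.card := by
        refine le_trans (card_le_card ?_) (card_image_le
          (f := fun q : ℕ × ℕ => (q.1 + n * φ q.1, q.2 + n * φ q.2)))
        intro q hq
        rw [mem_filter, mem_product, mem_image, mem_image] at hq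
        obtain ⟨⟨⟨u, hu, h5⟩, ⟨u', hu', h6⟩⟩, h7⟩ := hq
        rw [mem_image]
        refine ⟨(u, u'), ?_, Prod.ext h5 h6⟩
        rw [hA, mem_filter, mem_product]
        refine ⟨⟨hu, hu'⟩, ?_⟩
        simp only
        rw [h5, h6]; exact h7
      refine h4.trans ?_
      have h5 : A ⊆ (A.filter (fun q => q.2 < q.1)) ∪ (A.filter (fun q => q.1 < q.2)) ∪
          (A.filter (fun q => q.1 = q.2)) := by
        intro q hq
        rcases lt_trichotomy q.1 q.2 with h | h | h
        · exact mem_union_left _ (mem_union_right _ (mem_filter.mpr ⟨hq, h⟩))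
        · exact mem_union_right _ (mem_filter.mpr ⟨hq, h⟩)
        · exact mem_union_left _ (mem_union_left _ (mem_filter.mpr ⟨hq, h⟩))
      have h6 : (A.filter (fun q => q.2 < q.1)).card ≤ B.card := by
        apply card_le_card_of_injOn (fun q => q.1)
        · intro q hq
          rw [mem_coe, mem_filter, hA, mem_filter, mem_product] at hq
          rw [mem_coe, hB, mem_filter]
          exact ⟨hq.1.1.1, q.2, hq.2, by rw [← hq.1.2]; ring⟩
        · intro q hq q' hq' h
          rw [mem_coe, mem_filter, hA, mem_filter, mem_product] at hq hq'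
          simp only at h
          have h7 := hq.1.2
          have h8 := hq'.1.2
          rw [h] at h7
          have h9 : q.2 + n * φ q.2 = q'.2 + n * φ q'.2 := by omega
          exact Prod.ext h (graph_inj (mem_range.mp hq.1.1.2) (mem_range.mp hq'.1.1.2) h9).1
      have h7 : (A.filter (fun q => q.1 < q.2)).card ≤ B.card := by
        apply card_le_card_of_injOn (fun q => q.2)
        · intro q hq
          rw [mem_coe, mem_filter, hA, mem_filter, mem_product] at hq
          rw [mem_coe, hB, mem_filter]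
          exact ⟨hq.1.1.2, q.1, hq.2, hq.1.2⟩
        · intro q hq q' hq' h
          rw [mem_coe, mem_filter, hA, mem_filter, mem_product] at hq hq'
          simp only at h
          have h7 := hq.1.2
          have h8 := hq'.1.2
          rw [h] at h7
          have h9 : q.1 + n * φ q.1 = q'.1 + n * φ q'.1 := by omega
          exact Prod.ext (graph_inj (mem_range.mp hq.1.1.1) (mem_range.mp hq'.1.1.1) h9).1 h
      have h8 : (A.filter (fun q => q.1 = q.2)).card ≤ 1 := by
        rw [card_le_one]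
        intro q hq q' hq'
        rw [mem_filter, hA, mem_filter, mem_product] at hq hq'
        obtain ⟨⟨⟨h9, -⟩, h10⟩, h11⟩ := hq
        obtain ⟨⟨⟨h9', -⟩, h10'⟩, h11'⟩ := hq'
        rw [← h11] at h10
        rw [← h11'] at h10'
        have h12 : q.1 + n * φ q.1 = q'.1 + n * φ q'.1 := by omega
        have h13 := (graph_inj (mem_range.mp h9) (mem_range.mp h9') h12).1
        exact Prod.ext h13 (by rw [← h11, ← h11', h13])
      have h9 := card_le_card h5
      have h10 := card_union_le ((A.filter (fun q => q.2 < q.1)) ∪ (A.filter (fun q => q.1 < q.2)))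
        (A.filter (fun q => q.1 = q.2))
      have h11 := card_union_le (A.filter (fun q => q.2 < q.1)) (A.filter (fun q => q.1 < q.2))
      omega
    · rw [card_eq_zero.mpr]
      · omega
      · rw [filter_eq_empty_iff]
        intro q hq h3
        rw [mem_product, mem_image, mem_image] at hq
        obtain ⟨⟨u, hu, h5⟩, ⟨u', hu', h6⟩⟩ := hq
        rw [mem_range] at hu hu'
        have hlt : ∀ u < n, u + n * φ u < 2 ^ ρ := by
          intro u hu
          have h3 := hφ u hu
          calc u + n * φ u < n + n * φ u := by omega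
            _ = n * (φ u + 1) := by ring
            _ ≤ n * n' := Nat.mul_le_mul_left _ h3
            _ = 2 ^ ρ := hnn
        have h7 := hlt u hu
        have h8 := hlt u' hu'
        rw [pow_succ] at hs
        omega

end Pool.Agent.ETS.TKS
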