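import Mathlib
import Pool.Agent.Helper84.ET.TK2
import Pool.Agent.Helper84.ET.TKDefs

/-!
# E-T (MP_12a1af_nt), project T*: the sequential choice of the random sets of the windows
-/

open Finset

namespace Pool.Agent.ETS.TKS

/-- dependent choice -/
theorem exists_seq {α : Type*} [Inhabited α] (P : ℕ → (ℕ → α) → α → Prop)
    (hloc : ∀ K g g' a, (∀ i < K, g i = g' i) → P K g a → P K g' a)
    (hex : ∀ K g, ∃ a, P K g a) : ∃ g : ℕ → α, ∀ K, P K g (g K) := by
  classical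
  choose F hF using hex
  let G : ℕ → (ℕ → α) := fun n => Nat.rec (fun _ => default) (fun n g => Function.update g n (F n g)) n
  have hG : ∀ n, G (n + 1) = Function.update (G n) n (F n (G n)) := fun n => rfl
  have hst : ∀ n i, i < n → G n i = G (i + 1) i := by
    intro n
    induction n with
    | zero => intro i hi; omega
    | succ n ih =>
      intro i hi
      rcases Nat.lt_succ_iff_lt_or_eq.mp hi with h | h
      · rw [hG, Function.update_of_ne (by omega)]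
        exact ih i h
      · rw [h]
  refine ⟨fun K => G (K + 1) K, fun K => ?_⟩
  have h1 : G (K + 1) K = F K (G K) := by rw [hG, Function.update_self]
  simp only
  rw [h1]
  exact hloc K (G K) _ _ (fun i hi => hst K i hi) (hF K (G K))

open Classical in
/-- one random set with the bounds for all members of a family of sets -/
theorem exists_set' (ρ U : ℕ) (F : Finset (Finset ℕ)) (hU : F.card ≤ 2 ^ U) :
    ∃ T : Finset ℕ, (∀ t ∈ T, t < 2 ^ ρ) ∧ T.card = 2 ^ (ρ / 2) ∧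
      (∀ Q ∈ F, ∀ d ≤ ρ, (T ∩ Q).card ≤ 2 ^ (d + 3) * Q.card / 2 ^ (ρ - ρ / 2) +
        (U + ρ) / (d + 1)) ∧
      ∀ s, ((T ×ˢ T).filter (fun q => q.1 + q.2 = s)).card ≤ 2 * (ρ + 4) := by
  set mf : Finset ℕ × ℕ → ℕ := fun q => 2 ^ (q.2 + 3) * q.1.card / 2 ^ (ρ - ρ / 2) +
    (U + ρ) / (q.2 + 1) + 1 with hmf
  obtain ⟨T, h1, h2, h3, h4⟩ := exists_set ρ (U + ρ)
    ((F ×ˢ range (ρ + 1)).image (fun q => (q.1, mf q, q.2))) (by
      refine card_image_le.trans ?_
      rw [card_product, card_range, pow_add]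
      exact Nat.mul_le_mul hU (Nat.succ_le_of_lt Nat.lt_two_pow_self)) (by
      intro c hc
      rw [mem_image] at hc
      obtain ⟨⟨Q, d⟩, hq, rfl⟩ := hc
      simp only [hmf]
      have h5 : 0 < 2 ^ (ρ - ρ / 2) := by positivity
      have h6 := Nat.lt_mul_div_succ (2 ^ (d + 3) * Q.card) h5
      calc 2 ^ (d + 3) * Q.card ≤ 2 ^ (ρ - ρ / 2) *
            (2 ^ (d + 3) * Q.card / 2 ^ (ρ - ρ / 2) + 1) := h6.le
        _ = (2 ^ (d + 3) * Q.card / 2 ^ (ρ - ρ / 2) + 1) * 2 ^ (ρ - ρ / 2) := mul_comm _ _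
        _ ≤ _ := Nat.mul_le_mul_right _ (Nat.add_le_add_right (Nat.le_add_right _ _) 1)) (by
      intro c hc
      rw [mem_image] at hc
      obtain ⟨⟨Q, d⟩, hq, rfl⟩ := hc
      simp only [hmf]
      have h6 := Nat.lt_mul_div_succ (U + ρ) (Nat.succ_pos d)
      calc U + ρ + 1 ≤ (d + 1) * ((U + ρ) / (d + 1) + 1) := h6
        _ = ((U + ρ) / (d + 1) + 1) * (d + 1) := mul_comm _ _
        _ ≤ _ := Nat.mul_le_mul_right _ (Nat.add_le_add_right (Nat.le_add_left _ _) 1))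
  refine ⟨T, h1, h2, ?_, h4⟩
  intro Q hQ d hd
  have := h3 (Q, mf (Q, d), d) (mem_image.mpr ⟨(Q, d), mem_product.mpr
    ⟨hQ, mem_range.mpr (by omega)⟩, rfl⟩)
  simp only [hmf] at this
  omega

section

variable (w hc ew : ℕ → ℕ) (R : ℕ → ℕ → Finset ℕ)

/-- length of the random part -/
def rho (K : ℕ) : ℕ := K - (w K + hc K)

open Classical in
/-- the elements of the random part of `K` whose low digits are given, seen from `J > K` -/
noncomputable def O0 (K J κ' ν : ℕ) : Finset ℕ :=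
  (range (2 ^ (K - (w K + hc K)))).filter (fun t =>
    ((t + κ') % 2 ^ (K - (w K + hc K))) % 2 ^ (w J + hc J - (w K + hc K)) = ν)

open Classical in
/-- the elements of the random part of `K` which are compatible with a given random digit string
`s` of the composite window of `J > K` -/
noncomputable def O1 (K J κ κ' ν s : ℕ) : Finset ℕ :=
  (range (2 ^ (K - (w K + hc K)))).filter (fun t => ∃ r ∈ R (ew J) (hc J),
    2 ^ (w J - (w K + hc K)) * ((r + 2 ^ hc J * s + κ) % 2 ^ (J - w J)) +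
      (t + κ') % 2 ^ (K - (w K + hc K)) = ν)

open Classical in
/-- the elements of the random part of `K` which are compatible with the composite window of
`J > K` -/
noncomputable def O2 (K J κ κ' ν : ℕ) : Finset ℕ :=
  (range (2 ^ (K - (w K + hc K)))).filter (fun t => ∃ r ∈ R (ew J) (hc J),
    ∃ s < 2 ^ (J - (w J + hc J)),
    2 ^ (w J - (w K + hc K)) * ((r + 2 ^ hc J * s + κ) % 2 ^ (J - w J)) +
      (t + κ') % 2 ^ (K - (w K + hc K)) = ν)

open Classical in
/-- the elements of the random part of `K` which are compatible with a region `RTh` -/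
noncomputable def OF (K e b l κ κ' ν : ℕ) : Finset ℕ :=
  (range (2 ^ (K - (w K + hc K)))).filter (fun t => ∃ r ∈ R e l,
    2 ^ (b - (w K + hc K)) * ((r + κ) % 2 ^ l) +
        (t + κ') % 2 ^ (K - (w K + hc K)) ≡ ν [MOD 2 ^ (b + l - (w K + hc K))])

open Classical in
/-- the digit strings of the random part of `K` which occur with the random part of `I < K` -/
noncomputable def X0 (g : ℕ → Finset ℕ) (K I κ κ' ν : ℕ) : Finset ℕ :=
  (range (2 ^ (K - (w K + hc K)))).filter (fun t => ∃ t' ∈ g I,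
    2 ^ (w K + hc K - (w I + hc I)) * ((t + κ) % 2 ^ (K - (w K + hc K))) +
      (t' + κ') % 2 ^ (I - (w I + hc I)) = ν)

open Classical in
/-- the digit strings of the random part of the composite window of `K` which occur with the
random part of `I < K` -/
noncomputable def X3 (g : ℕ → Finset ℕ) (K I κ κ' ν : ℕ) : Finset ℕ :=
  (range (2 ^ (K - (w K + hc K)))).filter (fun s => ∃ t' ∈ g I, ∃ r ∈ R (ew K) (hc K),
    2 ^ (w K - (w I + hc I)) * ((r + 2 ^ hc K * s + κ) % 2 ^ (K - w K)) +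
      (t' + κ') % 2 ^ (I - (w I + hc I)) = ν)

/-- parameters -/
def par (X : ℕ) : Finset (ℕ × ℕ × ℕ × ℕ × ℕ × ℕ) :=
  range X ×ˢ range X ×ˢ range X ×ˢ range X ×ˢ range X ×ˢ range X

lemma card_par (X : ℕ) : (par X).card = X ^ 6 := by
  unfold par
  simp only [card_product, card_range]
  ring

lemma mem_par {X a b c d e f : ℕ} (ha : a < X) (hb : b < X) (hc : c < X) (hd : d < X) (he : e < X)
    (hf : f < X) : (a, b, c, d, e, f) ∈ par X := by
  unfold par
  simp only [mem_product, mem_range]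
  exact ⟨ha, hb, hc, hd, he, hf⟩

open Classical in
/-- the family of sets for the scale `K`, if the sets `g I`, `I < K`, are given -/
noncomputable def fam (g : ℕ → Finset ℕ) (K X : ℕ) : Finset (Finset ℕ) :=
  (((par X).image (fun p => O0 w hc K p.1 p.2.1 p.2.2.1) ∪
    (par X).image (fun p => O1 w hc ew R K p.1 p.2.1 p.2.2.1 p.2.2.2.1 p.2.2.2.2.1)) ∪
   ((par X).image (fun p => O2 w hc ew R K p.1 p.2.1 p.2.2.1 p.2.2.2.1) ∪
    (par X).image (fun p => OF w hc R K p.1 p.2.1 p.2.2.1 p.2.2.2.1 p.2.2.2.2.1 p.2.2.2.2.2))) ∪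
   ((par X).image (fun p => X0 w hc g K p.1 p.2.1 p.2.2.1 p.2.2.2.1) ∪
    (par X).image (fun p => X3 w hc ew R g K p.1 p.2.1 p.2.2.1 p.2.2.2.1))

lemma card_fam (g : ℕ → Finset ℕ) (K L : ℕ) : (fam w hc ew R g K (2 ^ L)).card ≤ 2 ^ (6 * L + 3) := by
  classical
  unfold fam
  have h1 : ∀ f : ℕ × ℕ × ℕ × ℕ × ℕ × ℕ → Finset ℕ, ((par (2 ^ L)).image f).card ≤ (2 ^ L) ^ 6 :=
    fun f => card_image_le.trans (card_par _).le
  have h2 : (2:ℕ) ^ (6 * L + 3) = 8 * (2 ^ L) ^ 6 := by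
    rw [pow_add, ← pow_mul, mul_comm L 6]; ring
  rw [h2]
  refine (card_union_le _ _).trans ?_
  have e1 := card_union_le
    ((par (2 ^ L)).image (fun p => X0 w hc g K p.1 p.2.1 p.2.2.1 p.2.2.2.1))
    ((par (2 ^ L)).image (fun p => X3 w hc ew R g K p.1 p.2.1 p.2.2.1 p.2.2.2.1))
  have e2 := card_union_le
    ((par (2 ^ L)).image (fun p => O0 w hc K p.1 p.2.1 p.2.2.1) ∪
    (par (2 ^ L)).image (fun p => O1 w hc ew R K p.1 p.2.1 p.2.2.1 p.2.2.2.1 p.2.2.2.2.1))
   ((par (2 ^ L)).image (fun p => O2 w hc ew R K p.1 p.2.1 p.2.2.1 p.2.2.2.1) ∪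
    (par (2 ^ L)).image (fun p => OF w hc R K p.1 p.2.1 p.2.2.1 p.2.2.2.1 p.2.2.2.2.1 p.2.2.2.2.2))
  have e3 := card_union_le ((par (2 ^ L)).image (fun p => O0 w hc K p.1 p.2.1 p.2.2.1))
    ((par (2 ^ L)).image (fun p => O1 w hc ew R K p.1 p.2.1 p.2.2.1 p.2.2.2.1 p.2.2.2.2.1))
  have e4 := card_union_le
    ((par (2 ^ L)).image (fun p => O2 w hc ew R K p.1 p.2.1 p.2.2.1 p.2.2.2.1))
    ((par (2 ^ L)).image (fun p => OF w hc R K p.1 p.2.1 p.2.2.1 p.2.2.2.1 p.2.2.2.2.1 p.2.2.2.2.2))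
  have a1 := h1 (fun p => O0 w hc K p.1 p.2.1 p.2.2.1)
  have a2 := h1 (fun p => O1 w hc ew R K p.1 p.2.1 p.2.2.1 p.2.2.2.1 p.2.2.2.2.1)
  have a3 := h1 (fun p => O2 w hc ew R K p.1 p.2.1 p.2.2.1 p.2.2.2.1)
  have a4 := h1 (fun p => OF w hc R K p.1 p.2.1 p.2.2.1 p.2.2.2.1 p.2.2.2.2.1 p.2.2.2.2.2)
  have a5 := h1 (fun p => X0 w hc g K p.1 p.2.1 p.2.2.1 p.2.2.2.1)
  have a6 := h1 (fun p => X3 w hc ew R g K p.1 p.2.1 p.2.2.1 p.2.2.2.1)
  omega

/-- the property of the set of scale `K` -/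
def Ch (L : ℕ → ℕ) (K : ℕ) (g : ℕ → Finset ℕ) (T : Finset ℕ) : Prop :=
  (∀ t ∈ T, t < 2 ^ (K - (w K + hc K))) ∧ T.card = 2 ^ ((K - (w K + hc K)) / 2) ∧
  (∀ s, ((T ×ˢ T).filter (fun q => q.1 + q.2 = s)).card ≤ 2 * ((K - (w K + hc K)) + 4)) ∧
  ∀ Q ∈ fam w hc ew R (fun I => if I < K then g I else ∅) K (2 ^ L K), ∀ d ≤ K - (w K + hc K),
    (T ∩ Q).card ≤ 2 ^ (d + 3) * Q.card / 2 ^ (K - (w K + hc K) - (K - (w K + hc K)) / 2) +
      (6 * L K + 3 + (K - (w K + hc K))) / (d + 1)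

/-- **the sequence of the random sets** -/
theorem exists_TK (L : ℕ → ℕ) : ∃ TK : ℕ → Finset ℕ, ∀ K, Ch w hc ew R L K TK (TK K) := by
  refine exists_seq (Ch w hc ew R L) ?_ ?_
  · intro K g g' a h h1
    have h2 : (fun I => if I < K then g I else ∅) = (fun I => if I < K then g' I else ∅) := by
      funext I
      split_ifs with hI
      · exact h I hI
      · rfl
    unfold Ch at h1 ⊢
    rw [← h2]
    exact h1
  · intro K g
    obtain ⟨T, h1, h2, h3, h4⟩ := exists_set' (K - (w K + hc K)) (6 * L K + 3)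
      (fam w hc ew R (fun I => if I < K then g I else ∅) K (2 ^ L K)) (card_fam _ _ _ _ _ _ _)
    exact ⟨T, h1, h2, h4, h3⟩

end

end Pool.Agent.ETS.TKS
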