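import Mathlib
import Pool.Agent.Helper84.ET.TK3

/-!
# E-T (MP_12a1af_nt), project T*: sizes of the sets of the families
-/

open Finset

namespace Pool.Agent.ETS.TKS

lemma mod_add_inj {m t t' κ : ℕ} (ht : t < m) (ht' : t' < m) (h : (t + κ) % m = (t' + κ) % m) :
    t = t' := by
  have h1 : t ≡ t' [MOD m] := Nat.ModEq.add_right_cancel' κ h
  exact Nat.ModEq.eq_of_lt_of_lt h1 ht ht'

lemma card_le_two_pow_half {n h : ℕ} (hn : n ^ 2 ≤ 2 ^ h) : n ≤ 2 ^ (h - h / 2) := by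
  by_contra hne
  push Not at hne
  have h1 : (2 ^ (h - h / 2)) ^ 2 < n ^ 2 := Nat.pow_lt_pow_left hne (by norm_num)
  have h2 : 2 ^ h ≤ (2 ^ (h - h / 2)) ^ 2 := by
    rw [← pow_mul]
    exact Nat.pow_le_pow_right (by norm_num) (by omega)
  omega

section

variable {w hc ew : ℕ → ℕ} {R : ℕ → ℕ → Finset ℕ}

lemma card_class {ρ u κ' ν : ℕ} (hu : u ≤ ρ) :
    ((range (2 ^ ρ)).filter (fun t => ((t + κ') % 2 ^ ρ) % 2 ^ u = ν)).card ≤ 2 ^ (ρ - u) := by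
  rw [← card_range (2 ^ (ρ - u))]
  apply card_le_card_of_injOn (fun t => ((t + κ') % 2 ^ ρ) / 2 ^ u)
  · intro t ht
    rw [mem_coe, mem_filter, mem_range] at ht
    rw [mem_coe, mem_range]
    rw [Nat.div_lt_iff_lt_mul (by positivity), ← pow_add, Nat.sub_add_cancel hu]
    exact Nat.mod_lt _ (by positivity)
  · intro t ht t' ht' h
    rw [mem_coe, mem_filter, mem_range] at ht ht'
    simp only at h
    refine mod_add_inj ht.1 ht'.1 (κ := κ') ?_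
    have h1 := Nat.div_add_mod ((t + κ') % 2 ^ ρ) (2 ^ u)
    have h2 := Nat.div_add_mod ((t' + κ') % 2 ^ ρ) (2 ^ u)
    rw [ht.2, h] at h1
    rw [ht'.2] at h2
    omega

lemma card_O0 {K J κ' ν : ℕ} (h : w J + hc J ≤ K) (h' : w K + hc K ≤ w J + hc J) :
    (O0 w hc K J κ' ν).card ≤ 2 ^ (K - (w J + hc J)) := by
  unfold O0
  refine (card_class (by omega)).trans (Nat.pow_le_pow_right (by norm_num) (by omega))

lemma card_O1_R {K J κ κ' ν s : ℕ} :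
    (O1 w hc ew R K J κ κ' ν s).card ≤ (R (ew J) (hc J)).card := by
  classical
  unfold O1
  refine card_le_card_of_forall_subsingleton (fun t r =>
    2 ^ (w J - (w K + hc K)) * ((r + 2 ^ hc J * s + κ) % 2 ^ (J - w J)) +
      (t + κ') % 2 ^ (K - (w K + hc K)) = ν) ?_ ?_
  · intro t ht
    rw [mem_filter] at ht
    exact ht.2
  · intro r _ t ht t' ht'
    simp only [Set.mem_ofPred_eq, mem_filter, mem_range] at ht ht'
    exact mod_add_inj ht.1.1 ht'.1.1 (κ := κ') (by have := ht.2; have := ht'.2; omega)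

lemma card_O1_w {K J κ κ' ν s : ℕ} (h : w J ≤ K) (h' : w K + hc K ≤ w J) :
    (O1 w hc ew R K J κ κ' ν s).card ≤ 2 ^ (K - w J) := by
  classical
  have h1 : O1 w hc ew R K J κ κ' ν s ⊆ (range (2 ^ (K - (w K + hc K)))).filter (fun t =>
      ((t + κ') % 2 ^ (K - (w K + hc K))) % 2 ^ (w J - (w K + hc K)) =
        ν % 2 ^ (w J - (w K + hc K))) := by
    intro t ht
    unfold O1 at ht
    rw [mem_filter] at ht ⊢
    obtain ⟨h2, r, -, h3⟩ := ht
    refine ⟨h2, ?_⟩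
    rw [← h3, Nat.mul_add_mod]
  refine (card_le_card h1).trans ((card_class (by omega)).trans
    (Nat.pow_le_pow_right (by norm_num) (by omega)))

lemma card_O2 {K J κ κ' ν : ℕ} (h : w J ≤ K) (h' : w K + hc K ≤ w J) (hJ : w J + hc J ≤ J) :
    (O2 w hc ew R K J κ κ' ν).card ≤ (R (ew J) (hc J)).card * 2 ^ (K - w J - hc J) := by
  classical
  rw [← card_range (2 ^ (K - w J - hc J)), ← card_product]
  unfold O2
  refine card_le_card_of_forall_subsingleton (fun t q => ∃ s,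
    2 ^ (w J - (w K + hc K)) * ((q.1 + 2 ^ hc J * s + κ) % 2 ^ (J - w J)) +
      (t + κ') % 2 ^ (K - (w K + hc K)) = ν ∧
      ((q.1 + 2 ^ hc J * s + κ) % 2 ^ (J - w J)) / 2 ^ hc J % 2 ^ (K - w J - hc J) = q.2) ?_ ?_
  · intro t ht
    rw [mem_filter] at ht
    obtain ⟨-, r, hr, s, -, h2⟩ := ht
    exact ⟨(r, ((r + 2 ^ hc J * s + κ) % 2 ^ (J - w J)) / 2 ^ hc J % 2 ^ (K - w J - hc J)),
      mem_product.mpr ⟨hr, mem_range.mpr (Nat.mod_lt _ (by positivity))⟩, s, h2, rfl⟩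
  · rintro ⟨r, q0⟩ - t ht t' ht'
    simp only [Set.mem_ofPred_eq, mem_filter, mem_range] at ht ht'
    obtain ⟨⟨ht1, -⟩, s, h2, h3⟩ := ht
    obtain ⟨⟨ht1', -⟩, s', h2', h3'⟩ := ht'
    set Aa := (r + 2 ^ hc J * s + κ) % 2 ^ (J - w J) with hA
    set Aa' := (r + 2 ^ hc J * s' + κ) % 2 ^ (J - w J) with hA'
    set B := (t + κ') % 2 ^ (K - (w K + hc K)) with hB
    set B' := (t' + κ') % 2 ^ (K - (w K + hc K)) with hB'
    -- the low digits of `Aa`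
    have hdvd : 2 ^ hc J ∣ 2 ^ (J - w J) := pow_dvd_pow 2 (by omega)
    have h4 : Aa % 2 ^ hc J = Aa' % 2 ^ hc J := by
      rw [hA, hA', Nat.mod_mod_of_dvd _ hdvd, Nat.mod_mod_of_dvd _ hdvd]
      have e1 : r + 2 ^ hc J * s + κ = r + κ + 2 ^ hc J * s := by ring
      have e2 : r + 2 ^ hc J * s' + κ = r + κ + 2 ^ hc J * s' := by ring
      rw [e1, e2, Nat.add_mul_mod_self_left, Nat.add_mul_mod_self_left]
    -- `Aa ≡ Aa'` modulo `2 ^ (hc J + (K - w J - hc J))`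
    have h5 : Aa ≡ Aa' [MOD 2 ^ hc J * 2 ^ (K - w J - hc J)] := by
      have e1 := Nat.div_add_mod Aa (2 ^ hc J)
      have e2 := Nat.div_add_mod Aa' (2 ^ hc J)
      have e3 : Aa / 2 ^ hc J ≡ Aa' / 2 ^ hc J [MOD 2 ^ (K - w J - hc J)] := by
        show _ % _ = _ % _
        rw [h3, h3']
      rw [← e1, ← e2, h4]
      exact Nat.ModEq.add_right _ (Nat.ModEq.mul_left' _ e3)
    have h6 : 2 ^ (w J - (w K + hc K)) * Aa ≡ 2 ^ (w J - (w K + hc K)) * Aa'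
        [MOD 2 ^ (w J - (w K + hc K)) * (2 ^ hc J * 2 ^ (K - w J - hc J))] :=
      Nat.ModEq.mul_left' _ h5
    have h7 : B ≡ B' [MOD 2 ^ (w J - (w K + hc K)) * (2 ^ hc J * 2 ^ (K - w J - hc J))] := by
      refine Nat.ModEq.add_left_cancel h6 ?_
      rw [h2, h2']
    have h8 : 2 ^ (K - (w K + hc K)) ≤
        2 ^ (w J - (w K + hc K)) * (2 ^ hc J * 2 ^ (K - w J - hc J)) := by
      rw [← pow_add, ← pow_add]
      exact Nat.pow_le_pow_right (by norm_num) (by omega)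
    have hBlt : B < 2 ^ (K - (w K + hc K)) := Nat.mod_lt _ (by positivity)
    have hBlt' : B' < 2 ^ (K - (w K + hc K)) := Nat.mod_lt _ (by positivity)
    have h9 : B = B' := Nat.ModEq.eq_of_lt_of_lt h7 (hBlt.trans_le h8) (hBlt'.trans_le h8)
    exact mod_add_inj ht1 ht1' (κ := κ') (by rw [← hB, ← hB']; exact h9)

lemma card_OF {K e b l κ κ' ν : ℕ} (h : w K + hc K ≤ b) (h' : b + l ≤ K) :
    (OF w hc R K e b l κ κ' ν).card ≤ (R e l).card * 2 ^ (K - (b + l)) := by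
  classical
  rw [← card_range (2 ^ (K - (b + l))), ← card_product]
  unfold OF
  refine card_le_card_of_forall_subsingleton (fun t q =>
    2 ^ (b - (w K + hc K)) * ((q.1 + κ) % 2 ^ l) +
        (t + κ') % 2 ^ (K - (w K + hc K)) ≡ ν [MOD 2 ^ (b + l - (w K + hc K))] ∧
      ((t + κ') % 2 ^ (K - (w K + hc K))) / 2 ^ (b + l - (w K + hc K)) = q.2) ?_ ?_
  · intro t ht
    rw [mem_filter] at ht
    obtain ⟨-, r, hr, h2⟩ := ht
    refine ⟨(r, _), mem_product.mpr ⟨hr, mem_range.mpr ?_⟩, h2, rfl⟩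
    rw [Nat.div_lt_iff_lt_mul (by positivity), ← pow_add]
    refine (Nat.mod_lt _ (by positivity)).trans_le (Nat.pow_le_pow_right (by norm_num) (by omega))
  · rintro ⟨r, q0⟩ - t ht t' ht'
    simp only [Set.mem_ofPred_eq, mem_filter, mem_range] at ht ht'
    obtain ⟨⟨ht1, -⟩, h2, h3⟩ := ht
    obtain ⟨⟨ht1', -⟩, h2', h3'⟩ := ht'
    refine mod_add_inj ht1 ht1' (κ := κ') ?_
    have h4 := Nat.ModEq.add_left_cancel' _ (h2.trans h2'.symm)
    have e1 := Nat.div_add_mod ((t + κ') % 2 ^ (K - (w K + hc K))) (2 ^ (b + l - (w K + hc K)))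
    have e2 := Nat.div_add_mod ((t' + κ') % 2 ^ (K - (w K + hc K))) (2 ^ (b + l - (w K + hc K)))
    have h5 : (t + κ') % 2 ^ (K - (w K + hc K)) % 2 ^ (b + l - (w K + hc K)) =
      (t' + κ') % 2 ^ (K - (w K + hc K)) % 2 ^ (b + l - (w K + hc K)) := h4
    rw [h3, h5] at e1
    rw [h3'] at e2
    omega

lemma card_X0 {g : ℕ → Finset ℕ} {K I κ κ' ν : ℕ} (hg : ∀ t ∈ g I, t < 2 ^ (I - (w I + hc I)))
    (_ : w I + hc I ≤ w K + hc K) :
    (X0 w hc g K I κ κ' ν).card ≤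
      (g I ∩ O0 w hc I K κ' (ν % 2 ^ (w K + hc K - (w I + hc I)))).card := by
  classical
  unfold X0
  refine card_le_card_of_forall_subsingleton (fun t t' =>
    2 ^ (w K + hc K - (w I + hc I)) * ((t + κ) % 2 ^ (K - (w K + hc K))) +
      (t' + κ') % 2 ^ (I - (w I + hc I)) = ν) ?_ ?_
  · intro t ht
    rw [mem_filter] at ht
    obtain ⟨-, t', ht', h2⟩ := ht
    refine ⟨t', mem_inter.mpr ⟨ht', ?_⟩, h2⟩
    unfold O0
    rw [mem_filter, mem_range]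
    refine ⟨hg t' ht', ?_⟩
    rw [← h2, Nat.mul_add_mod]
  · intro t' _ t ht t2 ht2
    simp only [Set.mem_ofPred_eq, mem_filter, mem_range] at ht ht2
    refine mod_add_inj ht.1.1 ht2.1.1 (κ := κ) ?_
    have h3 := ht.2
    have h4 := ht2.2
    have h5 : 2 ^ (w K + hc K - (w I + hc I)) * ((t + κ) % 2 ^ (K - (w K + hc K))) =
      2 ^ (w K + hc K - (w I + hc I)) * ((t2 + κ) % 2 ^ (K - (w K + hc K))) := by omega
    exact Nat.eq_of_mul_eq_mul_left (by positivity) h5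

lemma digits_uniq {h ρ r r' s s' κ : ℕ} (hr : r < 2 ^ h) (hr' : r' < 2 ^ h) (hs : s < 2 ^ ρ)
    (hs' : s' < 2 ^ ρ) (he : (r + 2 ^ h * s + κ) % 2 ^ (h + ρ) = (r' + 2 ^ h * s' + κ) % 2 ^ (h + ρ)) :
    r = r' ∧ s = s' := by
  have hlt : ∀ r s, r < 2 ^ h → s < 2 ^ ρ → r + 2 ^ h * s < 2 ^ (h + ρ) := by
    intro r s hr hs
    calc r + 2 ^ h * s < 2 ^ h + 2 ^ h * s := by omega
      _ = 2 ^ h * (s + 1) := by ring
      _ ≤ 2 ^ h * 2 ^ ρ := Nat.mul_le_mul_left _ hs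
      _ = 2 ^ (h + ρ) := (pow_add _ _ _).symm
  exact graph_inj hr hr' (mod_add_inj (hlt r s hr hs) (hlt r' s' hr' hs') he)

lemma card_X3 {g : ℕ → Finset ℕ} {K I κ κ' ν : ℕ} (hg : ∀ t ∈ g I, t < 2 ^ (I - (w I + hc I)))
    (hR : ∀ r ∈ R (ew K) (hc K), r < 2 ^ hc K) (hK : w K + hc K ≤ K) :
    (X3 w hc ew R g K I κ κ' ν).card ≤ (g I ∩ O2 w hc ew R I K κ κ' ν).card := by
  classical
  have e : K - w K = hc K + (K - (w K + hc K)) := by omega
  unfold X3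
  refine card_le_card_of_forall_subsingleton (fun s t' => ∃ r ∈ R (ew K) (hc K),
    2 ^ (w K - (w I + hc I)) * ((r + 2 ^ hc K * s + κ) % 2 ^ (K - w K)) +
      (t' + κ') % 2 ^ (I - (w I + hc I)) = ν) ?_ ?_
  · intro s hs
    rw [mem_filter, mem_range] at hs
    obtain ⟨hs1, t', ht', r, hr, h2⟩ := hs
    refine ⟨t', mem_inter.mpr ⟨ht', ?_⟩, r, hr, h2⟩
    unfold O2
    rw [mem_filter, mem_range]
    exact ⟨hg t' ht', r, hr, s, hs1, h2⟩
  · intro t' _ s hs s2 hs2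
    simp only [Set.mem_ofPred_eq, mem_filter, mem_range] at hs hs2
    obtain ⟨⟨hs1, -⟩, r, hr, h2⟩ := hs
    obtain ⟨⟨hs1', -⟩, r', hr', h2'⟩ := hs2
    have h5 : 2 ^ (w K - (w I + hc I)) * ((r + 2 ^ hc K * s + κ) % 2 ^ (K - w K)) =
      2 ^ (w K - (w I + hc I)) * ((r' + 2 ^ hc K * s2 + κ) % 2 ^ (K - w K)) := by omega
    have h6 := Nat.eq_of_mul_eq_mul_left (by positivity) h5
    rw [e] at h6
    exact (digits_uniq (hR r hr) (hR r' hr') hs1 hs1' h6).2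

end

end Pool.Agent.ETS.TKS
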