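import Mathlib
import Pool.Agent.Helper84.ET.TK4

/-!
# E-T (MP_12a1af_nt), project T*: the properties of the random sets of the windows
-/

open Finset

namespace Pool.Agent.ETS.TKS

/-- the numerical facts about the windows: `L K` bounds everything, `A` is a constant -/
structure WNum (w hc ew : ℕ → ℕ) (R : ℕ → ℕ → Finset ℕ) (ok : ℕ → ℕ → Prop) (K1 : ℕ)
    (L : ℕ → ℕ) (A : ℕ) : Prop where
  len : ∀ K, K1 ≤ K → w K + hc K ≤ K
  own : ∀ K, K1 ≤ K → K + 1 ≤ w K + hc K + L K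
  exp : ∀ K, K1 ≤ K → K < 2 ^ L K
  three : ∀ K, K1 ≤ K → 3 ≤ L K
  Rlt : ∀ e l, ok e l → ∀ r ∈ R e l, r < 2 ^ l
  Rcard : ∀ e l, ok e l → (R e l).card ^ 2 ≤ 2 ^ l
  oke : ∀ e l, ok e l → e ≤ l
  okc : ∀ K, K1 ≤ K → 0 < hc K → ok (ew K) (hc K)
  pair : ∀ K K', K1 ≤ K' → K' < K → w K ≤ K' →
    K + 1 ≤ w K' + hc K' + L K' ∧ K + 1 ≤ w K' + hc K' + L K ∧ K < 2 ^ L K'
  r1 : ∀ K K', K1 ≤ K' → K' < K → w K ≤ K' → 8 * L K' ≤ 2 ^ ((K - (w K + hc K)) / 4)
  r2 : ∀ K, K1 ≤ K → 8 * L K ≤ A * ((K - (w K + hc K)) / 8 + 1)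
  r3 : ∀ K, K1 ≤ K → 3 * hc K ≤ 2 * (K - (w K + hc K))
  z : ∀ K K', K1 ≤ K' → K' < K → 0 < hc K → w K' + hc K' ≤ w K → w K ≤ K' →
    ∃ x, x ≤ K' - (w K' + hc K') ∧
      min (hc K - hc K / 2) (K' - w K) + x ≤ K' - (w K' + hc K') - (K' - (w K' + hc K')) / 2 ∧
      8 * L K' ≤ A * (x + 1)

lemma num_div {V D ρ A : ℕ} (h : V ≤ A * (ρ / 8 + 1)) :
    V / (min (D / 2) (ρ / 8) + 1) ≤ A + 2 * V / (D + 1) := by
  rcases le_total (D / 2) (ρ / 8) with h1 | h1
  · rw [min_eq_left h1]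
    have h2 : V / (D / 2 + 1) ≤ 2 * V / (D + 1) := by
      rw [Nat.le_div_iff_mul_le (Nat.succ_pos _)]
      have h3 := Nat.div_mul_le_self V (D / 2 + 1)
      calc V / (D / 2 + 1) * (D + 1) ≤ V / (D / 2 + 1) * (2 * (D / 2 + 1)) :=
            Nat.mul_le_mul_left _ (by omega)
        _ = 2 * (V / (D / 2 + 1) * (D / 2 + 1)) := by ring
        _ ≤ 2 * V := by omega
    exact h2.trans (Nat.le_add_left _ _)
  · rw [min_eq_right h1]
    refine le_trans ?_ (Nat.le_add_right _ _)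
    exact Nat.div_le_of_le_mul (by rw [mul_comm]; exact h)

lemma num_X {d e1 ρ V n : ℕ} (hn : n ≤ 2 ^ (3 + e1) + V) (h1 : d + e1 ≤ ρ - ρ / 2 + 1)
    (hd : d ≤ ρ / 8) (hV : V ≤ 2 ^ (ρ / 4)) :
    2 ^ (d + 3) * n / 2 ^ (ρ - ρ / 2) ≤ 136 := by
  apply Nat.div_le_of_le_mul
  calc 2 ^ (d + 3) * n ≤ 2 ^ (d + 3) * (2 ^ (3 + e1) + 2 ^ (ρ / 4)) :=
        Nat.mul_le_mul_left _ (hn.trans (Nat.add_le_add_left hV _))
    _ = 2 ^ (d + 3 + (3 + e1)) + 2 ^ (d + 3 + ρ / 4) := by rw [mul_add, ← pow_add, ← pow_add]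
    _ ≤ 2 ^ (ρ - ρ / 2 + 7) + 2 ^ (ρ - ρ / 2 + 3) :=
        Nat.add_le_add (Nat.pow_le_pow_right (by norm_num) (by omega))
          (Nat.pow_le_pow_right (by norm_num) (by omega))
    _ = 2 ^ (ρ - ρ / 2) * 136 := by rw [pow_add, pow_add]; ring

/-- the bound of the number of pairs -/
def Mb (L : ℕ → ℕ) (A K D : ℕ) : ℕ := (8 + A) * (136 + A + 16 * L K / (D + 1))

section

variable {w hc ew : ℕ → ℕ} {R : ℕ → ℕ → Finset ℕ} {ok : ℕ → ℕ → Prop} {K1 : ℕ} {L : ℕ → ℕ} {A : ℕ}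
  {TK : ℕ → Finset ℕ}

/-- the bound for an own set -/
lemma own_bound (HN : WNum w hc ew R ok K1 L A) {K : ℕ} (hK : K1 ≤ K)
    (H : Ch w hc ew R L K TK (TK K)) {Q : Finset ℕ}
    (hQ : Q ∈ fam w hc ew R (fun I => if I < K then TK I else ∅) K (2 ^ L K)) {d : ℕ}
    (hd : d ≤ K - (w K + hc K)) :
    (TK K ∩ Q).card ≤ 2 ^ (d + 3) * Q.card / 2 ^ (K - (w K + hc K) - (K - (w K + hc K)) / 2) +
      8 * L K / (d + 1) := by
  refine (H.2.2.2 Q hQ d hd).trans (Nat.add_le_add_left ?_ _)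
  apply Nat.div_le_div_right
  have h1 := HN.own K hK
  have h2 := HN.three K hK
  have h3 := HN.len K hK
  omega

lemma half_pow {e ρ n : ℕ} (hn : n ≤ 2 ^ e) :
    2 ^ (0 + 3) * n / 2 ^ (ρ - ρ / 2) ≤ 2 ^ (3 + (e - (ρ - ρ / 2))) := by
  apply Nat.div_le_of_le_mul
  rw [← pow_add]
  calc 2 ^ (0 + 3) * n ≤ 2 ^ (0 + 3) * 2 ^ e := Nat.mul_le_mul_left _ hn
    _ = 2 ^ (0 + 3 + e) := (pow_add _ _ _).symm
    _ ≤ _ := Nat.pow_le_pow_right (by norm_num) (by omega)

lemma mem_fam_O0 {g : ℕ → Finset ℕ} {K X J κ' ν : ℕ} (hJ : J < X) (hκ : κ' < X) (hν : ν < X) :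
    O0 w hc K J κ' ν ∈ fam w hc ew R g K X := by
  classical
  unfold fam
  refine mem_union_left _ (mem_union_left _ (mem_union_left _ ?_))
  exact mem_image.mpr ⟨_, mem_par hJ hκ hν hν hν hν, rfl⟩

lemma mem_fam_O1 {g : ℕ → Finset ℕ} {K X J κ κ' ν s : ℕ} (hJ : J < X) (hκ : κ < X) (hκ' : κ' < X)
    (hν : ν < X) (hs : s < X) :
    O1 w hc ew R K J κ κ' ν s ∈ fam w hc ew R g K X := by
  classical
  unfold fam
  refine mem_union_left _ (mem_union_left _ (mem_union_right _ ?_))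
  exact mem_image.mpr ⟨_, mem_par hJ hκ hκ' hν hs hν, rfl⟩

lemma mem_fam_O2 {g : ℕ → Finset ℕ} {K X J κ κ' ν : ℕ} (hJ : J < X) (hκ : κ < X) (hκ' : κ' < X)
    (hν : ν < X) :
    O2 w hc ew R K J κ κ' ν ∈ fam w hc ew R g K X := by
  classical
  unfold fam
  refine mem_union_left _ (mem_union_right _ (mem_union_left _ ?_))
  exact mem_image.mpr ⟨_, mem_par hJ hκ hκ' hν hν hν, rfl⟩

lemma mem_fam_OF {g : ℕ → Finset ℕ} {K X e b l κ κ' ν : ℕ} (he : e < X) (hb : b < X) (hl : l < X)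
    (hκ : κ < X) (hκ' : κ' < X) (hν : ν < X) :
    OF w hc R K e b l κ κ' ν ∈ fam w hc ew R g K X := by
  classical
  unfold fam
  refine mem_union_left _ (mem_union_right _ (mem_union_right _ ?_))
  exact mem_image.mpr ⟨_, mem_par he hb hl hκ hκ' hν, rfl⟩

lemma mem_fam_X0 {g : ℕ → Finset ℕ} {K X I κ κ' ν : ℕ} (hI : I < X) (hκ : κ < X) (hκ' : κ' < X)
    (hν : ν < X) :
    X0 w hc g K I κ κ' ν ∈ fam w hc ew R g K X := by
  classical
  unfold fam
  refine mem_union_right _ (mem_union_left _ ?_)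
  exact mem_image.mpr ⟨_, mem_par hI hκ hκ' hν hν hν, rfl⟩

lemma mem_fam_X3 {g : ℕ → Finset ℕ} {K X I κ κ' ν : ℕ} (hI : I < X) (hκ : κ < X) (hκ' : κ' < X)
    (hν : ν < X) :
    X3 w hc ew R g K I κ κ' ν ∈ fam w hc ew R g K X := by
  classical
  unfold fam
  refine mem_union_right _ (mem_union_right _ ?_)
  exact mem_image.mpr ⟨_, mem_par hI hκ hκ' hν hν hν, rfl⟩

/-- `X0`, `X3` depend only on the set of scale `I` -/
lemma X0_trunc {g : ℕ → Finset ℕ} {K I κ κ' ν : ℕ} (hI : I < K) :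
    X0 w hc (fun I => if I < K then g I else ∅) K I κ κ' ν = X0 w hc g K I κ κ' ν := by
  unfold X0
  simp only [if_pos hI]

lemma X3_trunc {g : ℕ → Finset ℕ} {K I κ κ' ν : ℕ} (hI : I < K) :
    X3 w hc ew R (fun I => if I < K then g I else ∅) K I κ κ' ν = X3 w hc ew R g K I κ κ' ν := by
  unfold X3
  simp only [if_pos hI]

/-- number of digit strings of the random part of `K` in `X0` -/
lemma bound_X0 (HN : WNum w hc ew R ok K1 L A) (HC : ∀ K, Ch w hc ew R L K TK (TK K)) {K K' : ℕ}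
    (hK' : K1 ≤ K') (hKK : K' < K) (h1 : w K' + hc K' ≤ w K + hc K) (h2 : w K + hc K ≤ K')
    {κ κ' ν : ℕ} (hκ : κ < 2 ^ L K) (hκ' : κ' < 2 ^ L K) (hκ2 : κ' < 2 ^ L K') (hν : ν < 2 ^ L K) :
    (TK K ∩ X0 w hc TK K K' κ κ' ν).card ≤ 136 + A + 16 * L K / (K - K' + 1) := by
  have hK : K1 ≤ K := by omega
  have hlen := HN.len K' hK'
  obtain ⟨p1, p2, p3⟩ := HN.pair K K' hK' hKK (by omega)
  have hX : X0 w hc TK K K' κ κ' ν ∈ fam w hc ew R (fun I => if I < K then TK I else ∅) K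
      (2 ^ L K) := by
    rw [← X0_trunc hKK]
    exact mem_fam_X0 (hKK.trans (HN.exp K hK)) hκ hκ' hν
  have hO : O0 w hc K' K κ' (ν % 2 ^ (w K + hc K - (w K' + hc K'))) ∈
      fam w hc ew R (fun I => if I < K' then TK I else ∅) K' (2 ^ L K') := by
    refine mem_fam_O0 p3 hκ2 ((Nat.mod_lt _ (by positivity)).trans_le
      (Nat.pow_le_pow_right (by norm_num) (by omega)))
  have c1 := card_X0 (κ := κ) (κ' := κ') (ν := ν) (fun t ht => (HC K').1 t ht) h1
  have c2 := own_bound HN hK' (HC K') hO (d := 0) (Nat.zero_le _)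
  have c3 : (O0 w hc K' K κ' (ν % 2 ^ (w K + hc K - (w K' + hc K')))).card ≤
      2 ^ (K' - (w K + hc K)) := card_O0 h2 h1
  have c4 := half_pow (ρ := K' - (w K' + hc K')) c3
  have c5 : (X0 w hc TK K K' κ κ' ν).card ≤ 2 ^ (3 + (K' - (w K + hc K) -
      (K' - (w K' + hc K') - (K' - (w K' + hc K')) / 2))) + 8 * L K' := by
    refine c1.trans (c2.trans (Nat.add_le_add c4 ?_))
    rw [Nat.zero_add, Nat.div_one]
  set d := min ((K - K') / 2) ((K - (w K + hc K)) / 8) with hd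
  have hdle1 : d ≤ (K - K') / 2 := min_le_left _ _
  have hdle2 : d ≤ (K - (w K + hc K)) / 8 := min_le_right _ _
  have c6 := own_bound HN hK (HC K) hX (d := d) (by omega)
  refine c6.trans ?_
  have c7 := num_X c5 (d := d) (ρ := K - (w K + hc K)) (by omega) hdle2
    (HN.r1 K K' hK' hKK (by omega))
  have c8 := num_div (D := K - K') (HN.r2 K hK)
  rw [← hd] at c8
  have c9 : 2 * (8 * L K) = 16 * L K := by ring
  rw [c9] at c8
  omega

/-- number of digit strings of the random part of `K` in `X3` -/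
lemma bound_X3 (HN : WNum w hc ew R ok K1 L A) (HC : ∀ K, Ch w hc ew R L K TK (TK K)) {K K' : ℕ}
    (hK' : K1 ≤ K') (hKK : K' < K) (h0 : 0 < hc K) (h1 : w K' + hc K' ≤ w K) (h2 : w K ≤ K')
    {κ κ' ν : ℕ} (hκ : κ < 2 ^ L K) (hκ' : κ' < 2 ^ L K) (hν : ν < 2 ^ L K)
    (hκ1 : κ < 2 ^ L K') (hκ2 : κ' < 2 ^ L K') (hν2 : ν < 2 ^ L K') :
    (TK K ∩ X3 w hc ew R TK K K' κ κ' ν).card ≤ 136 + A + 16 * L K / (K - K' + 1) := by
  have hK : K1 ≤ K := by omega
  have hlen := HN.len K' hK'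
  have hlenK := HN.len K hK
  have hok := HN.okc K hK h0
  obtain ⟨p1, p2, p3⟩ := HN.pair K K' hK' hKK (by omega)
  have hX : X3 w hc ew R TK K K' κ κ' ν ∈ fam w hc ew R (fun I => if I < K then TK I else ∅) K
      (2 ^ L K) := by
    rw [← X3_trunc hKK]
    exact mem_fam_X3 (hKK.trans (HN.exp K hK)) hκ hκ' hν
  have hO : O2 w hc ew R K' K κ κ' ν ∈
      fam w hc ew R (fun I => if I < K' then TK I else ∅) K' (2 ^ L K') :=
    mem_fam_O2 p3 hκ1 hκ2 hν2
  have c1 := card_X3 (κ := κ) (κ' := κ') (ν := ν) (fun t ht => (HC K').1 t ht)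
    (HN.Rlt _ _ hok) hlenK
  have c2 := own_bound HN hK' (HC K') hO (d := 0) (Nat.zero_le _)
  have c3 : (O2 w hc ew R K' K κ κ' ν).card ≤ 2 ^ (hc K - hc K / 2 + (K' - w K - hc K)) := by
    refine (card_O2 h2 h1 hlenK).trans ?_
    rw [pow_add]
    exact Nat.mul_le_mul_right _ (card_le_two_pow_half (HN.Rcard _ _ hok))
  have c4 := half_pow (ρ := K' - (w K' + hc K')) c3
  have c5 : (X3 w hc ew R TK K K' κ κ' ν).card ≤ 2 ^ (3 + (hc K - hc K / 2 + (K' - w K - hc K) -
      (K' - (w K' + hc K') - (K' - (w K' + hc K')) / 2))) + 8 * L K' := by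
    refine c1.trans (c2.trans (Nat.add_le_add c4 ?_))
    rw [Nat.zero_add, Nat.div_one]
  set d := min ((K - K') / 2) ((K - (w K + hc K)) / 8) with hd
  have hdle1 : d ≤ (K - K') / 2 := min_le_left _ _
  have hdle2 : d ≤ (K - (w K + hc K)) / 8 := min_le_right _ _
  have c6 := own_bound HN hK (HC K) hX (d := d) (by omega)
  refine c6.trans ?_
  have h3 := HN.r3 K hK
  have c7 := num_X c5 (d := d) (ρ := K - (w K + hc K)) (by omega) hdle2
    (HN.r1 K K' hK' hKK (by omega))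
  have c8 := num_div (D := K - K') (HN.r2 K hK)
  rw [← hd] at c8
  have c9 : 2 * (8 * L K) = 16 * L K := by ring
  rw [c9] at c8
  omega

/-- few elements of the random part of `K'` for a given digit string of the composite window -/
lemma bound_O1 (HN : WNum w hc ew R ok K1 L A) (HC : ∀ K, Ch w hc ew R L K TK (TK K)) {K K' : ℕ}
    (hK' : K1 ≤ K') (hKK : K' < K) (h0 : 0 < hc K) (h1 : w K' + hc K' ≤ w K) (h2 : w K ≤ K')
    {κ κ' ν s : ℕ} (hκ1 : κ < 2 ^ L K') (hκ2 : κ' < 2 ^ L K') (hν2 : ν < 2 ^ L K')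
    (hs : s < 2 ^ L K') :
    (TK K' ∩ O1 w hc ew R K' K κ κ' ν s).card ≤ 8 + A := by
  have hK : K1 ≤ K := by omega
  have hok := HN.okc K hK h0
  obtain ⟨p1, p2, p3⟩ := HN.pair K K' hK' hKK (by omega)
  obtain ⟨x, x1, x2, x3⟩ := HN.z K K' hK' hKK h0 h1 h2
  have hO : O1 w hc ew R K' K κ κ' ν s ∈
      fam w hc ew R (fun I => if I < K' then TK I else ∅) K' (2 ^ L K') :=
    mem_fam_O1 p3 hκ1 hκ2 hν2 hs
  refine (own_bound HN hK' (HC K') hO x1).trans ?_
  have c1 : (O1 w hc ew R K' K κ κ' ν s).card ≤ 2 ^ min (hc K - hc K / 2) (K' - w K) := by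
    rcases le_total (hc K - hc K / 2) (K' - w K) with h | h
    · rw [min_eq_left h]
      exact card_O1_R.trans (card_le_two_pow_half (HN.Rcard _ _ hok))
    · rw [min_eq_right h]
      exact card_O1_w h2 h1
  refine Nat.add_le_add ?_ ?_
  · apply Nat.div_le_of_le_mul
    calc 2 ^ (x + 3) * (O1 w hc ew R K' K κ κ' ν s).card
        ≤ 2 ^ (x + 3) * 2 ^ min (hc K - hc K / 2) (K' - w K) := Nat.mul_le_mul_left _ c1
      _ = 2 ^ (x + 3 + min (hc K - hc K / 2) (K' - w K)) := (pow_add _ _ _).symm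
      _ ≤ 2 ^ (K' - (w K' + hc K') - (K' - (w K' + hc K')) / 2 + 3) :=
          Nat.pow_le_pow_right (by norm_num) (by omega)
      _ = _ := by rw [pow_add]; norm_num
  · exact Nat.div_le_of_le_mul (le_of_le_of_eq x3 (mul_comm _ _))

lemma mod_mod_add (t κ m : ℕ) : (t + κ % m) % m = (t + κ) % m := by
  rw [Nat.add_mod, Nat.mod_mod, ← Nat.add_mod]

/-- **`TKGood`** -/
theorem tkGood (HN : WNum w hc ew R ok K1 L A) (HC : ∀ K, Ch w hc ew R L K TK (TK K)) :
    TKGood w hc ew R ok K1 (fun K => 8 * L K) (Mb L A) TK where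
  lt := fun K _ => (HC K).1
  card := fun K _ => (HC K).2.1
  self := fun K hK s => by
    refine ((HC K).2.2.1 s).trans ?_
    unfold Mb
    have h1 := HN.own K hK
    have h2 := HN.len K hK
    have h3 := HN.three K hK
    rw [Nat.zero_add, Nat.div_one]
    refine le_trans ?_ (Nat.le_mul_of_pos_left _ (by omega))
    omega
  pp := fun K K' hK' hKK h1 h2 κ κ' ν => by
    classical
    have hK : K1 ≤ K := by omega
    have hlen := HN.len K' hK'
    have hlenK := HN.len K hK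
    obtain ⟨p1, p2, p3⟩ := HN.pair K K' hK' hKK (by omega)
    rcases lt_or_ge ν (2 ^ L K) with hν | hν
    · have e1 : ((TK K ×ˢ TK K').filter (fun q =>
          2 ^ (w K + hc K - (w K' + hc K')) * ((q.1 + κ) % 2 ^ (K - (w K + hc K))) +
            (q.2 + κ') % 2 ^ (K' - (w K' + hc K')) = ν)).card ≤
          (TK K ∩ X0 w hc TK K K' (κ % 2 ^ (K - (w K + hc K)))
            (κ' % 2 ^ (K' - (w K' + hc K'))) ν).card := by
        apply card_le_card_of_injOn (fun q => q.1)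
        · intro q hq
          rw [mem_coe, mem_filter, mem_product] at hq
          rw [mem_coe, mem_inter]
          refine ⟨hq.1.1, ?_⟩
          unfold X0
          rw [mem_filter, mem_range]
          refine ⟨(HC K).1 _ hq.1.1, q.2, hq.1.2, ?_⟩
          rw [mod_mod_add, mod_mod_add]
          exact hq.2
        · intro q hq q' hq' h
          rw [mem_coe, mem_filter, mem_product] at hq hq'
          simp only at h
          refine Prod.ext h ?_
          have h3 := hq.2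
          rw [h] at h3
          have h4 := hq'.2
          exact mod_add_inj ((HC K').1 _ hq.1.2) ((HC K').1 _ hq'.1.2) (κ := κ') (by omega)
      refine e1.trans ((bound_X0 HN HC hK' hKK h1 h2 ?_ ?_ ?_ hν).trans ?_)
      · exact (Nat.mod_lt _ (by positivity)).trans_le (Nat.pow_le_pow_right (by norm_num) (by omega))
      · exact (Nat.mod_lt _ (by positivity)).trans_le (Nat.pow_le_pow_right (by norm_num) (by omega))
      · exact (Nat.mod_lt _ (by positivity)).trans_le (Nat.pow_le_pow_right (by norm_num) (by omega))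
      · unfold Mb
        exact Nat.le_mul_of_pos_left _ (by omega)
    · rw [card_eq_zero.mpr]
      · exact Nat.zero_le _
      · rw [filter_eq_empty_iff]
        intro q hq h3
        have h4 : (q.1 + κ) % 2 ^ (K - (w K + hc K)) < 2 ^ (K - (w K + hc K)) :=
          Nat.mod_lt _ (by positivity)
        have h5 : (q.2 + κ') % 2 ^ (K' - (w K' + hc K')) < 2 ^ (K' - (w K' + hc K')) :=
          Nat.mod_lt _ (by positivity)
        have h6 : 2 ^ (w K + hc K - (w K' + hc K')) * ((q.1 + κ) % 2 ^ (K - (w K + hc K))) ≤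
            2 ^ (K - (w K' + hc K')) := by
          calc _ ≤ 2 ^ (w K + hc K - (w K' + hc K')) * 2 ^ (K - (w K + hc K)) :=
                Nat.mul_le_mul_left _ h4.le
            _ = 2 ^ (w K + hc K - (w K' + hc K') + (K - (w K + hc K))) := (pow_add _ _ _).symm
            _ ≤ _ := Nat.pow_le_pow_right (by norm_num) (by omega)
        have h7 : 2 ^ (K' - (w K' + hc K')) ≤ 2 ^ (K - (w K' + hc K')) :=
          Nat.pow_le_pow_right (by norm_num) (by omega)
        have h8 : 2 ^ (K - (w K' + hc K') + 1) ≤ 2 ^ L K :=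
          Nat.pow_le_pow_right (by norm_num) (by omega)
        rw [pow_succ] at h8
        omega
  cp := fun K K' hK' hKK h0 h1 h2 κ κ' ν => by
    classical
    have hK : K1 ≤ K := by omega
    have hlen := HN.len K' hK'
    have hlenK := HN.len K hK
    have hok := HN.okc K hK h0
    have e : K - w K = hc K + (K - (w K + hc K)) := by omega
    obtain ⟨p1, p2, p3⟩ := HN.pair K K' hK' hKK (by omega)
    -- a bound for `ν`
    have hνb : ∀ q : ℕ × ℕ × ℕ, 2 ^ (w K - (w K' + hc K')) *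
        ((q.1 + 2 ^ hc K * q.2.1 + κ) % 2 ^ (K - w K)) +
        (q.2.2 + κ') % 2 ^ (K' - (w K' + hc K')) < 2 ^ (K - (w K' + hc K') + 1) := by
      intro q
      have h4 : (q.1 + 2 ^ hc K * q.2.1 + κ) % 2 ^ (K - w K) < 2 ^ (K - w K) :=
        Nat.mod_lt _ (by positivity)
      have h5 : (q.2.2 + κ') % 2 ^ (K' - (w K' + hc K')) < 2 ^ (K' - (w K' + hc K')) :=
        Nat.mod_lt _ (by positivity)
      have h6 : 2 ^ (w K - (w K' + hc K')) * ((q.1 + 2 ^ hc K * q.2.1 + κ) % 2 ^ (K - w K)) ≤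
          2 ^ (K - (w K' + hc K')) := by
        calc _ ≤ 2 ^ (w K - (w K' + hc K')) * 2 ^ (K - w K) := Nat.mul_le_mul_left _ h4.le
          _ = 2 ^ (w K - (w K' + hc K') + (K - w K)) := (pow_add _ _ _).symm
          _ ≤ _ := Nat.pow_le_pow_right (by norm_num) (by omega)
      have h7 : 2 ^ (K' - (w K' + hc K')) ≤ 2 ^ (K - (w K' + hc K')) :=
        Nat.pow_le_pow_right (by norm_num) (by omega)
      rw [pow_succ]
      omega
    rcases lt_or_ge ν (2 ^ (K - (w K' + hc K') + 1)) with hν | hν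
    · have hνK : ν < 2 ^ L K := hν.trans_le (Nat.pow_le_pow_right (by norm_num) (by omega))
      have hνK' : ν < 2 ^ L K' := hν.trans_le (Nat.pow_le_pow_right (by norm_num) (by omega))
      set κ1 := κ % 2 ^ (K - w K) with hκ1
      set κ2 := κ' % 2 ^ (K' - (w K' + hc K')) with hκ2
      have hκ1lt : κ1 < 2 ^ (K - w K) := Nat.mod_lt _ (by positivity)
      have hκ2lt : κ2 < 2 ^ (K' - (w K' + hc K')) := Nat.mod_lt _ (by positivity)
      have b1 : κ1 < 2 ^ L K := hκ1lt.trans_le (Nat.pow_le_pow_right (by norm_num) (by omega))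
      have b2 : κ1 < 2 ^ L K' := hκ1lt.trans_le (Nat.pow_le_pow_right (by norm_num) (by omega))
      have b3 : κ2 < 2 ^ L K := hκ2lt.trans_le (Nat.pow_le_pow_right (by norm_num) (by omega))
      have b4 : κ2 < 2 ^ L K' := hκ2lt.trans_le (Nat.pow_le_pow_right (by norm_num) (by omega))
      -- map to pairs `(s, t')`
      have e1 : ((R (ew K) (hc K) ×ˢ (TK K ×ˢ TK K')).filter (fun q =>
          2 ^ (w K - (w K' + hc K')) * ((q.1 + 2 ^ hc K * q.2.1 + κ) % 2 ^ (K - w K)) +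
          (q.2.2 + κ') % 2 ^ (K' - (w K' + hc K')) = ν)).card ≤
          ((TK K ∩ X3 w hc ew R TK K K' κ1 κ2 ν).sigma
            (fun s => TK K' ∩ O1 w hc ew R K' K κ1 κ2 ν s)).card := by
        apply card_le_card_of_injOn (fun q => (⟨q.2.1, q.2.2⟩ : Sigma fun _ : ℕ => ℕ))
        · intro q hq
          rw [mem_coe, mem_filter, mem_product, mem_product] at hq
          obtain ⟨⟨hr, hs, ht⟩, h3⟩ := hq
          have h4 : 2 ^ (w K - (w K' + hc K')) * ((q.1 + 2 ^ hc K * q.2.1 + κ1) % 2 ^ (K - w K)) +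
              (q.2.2 + κ2) % 2 ^ (K' - (w K' + hc K')) = ν := by
            rw [hκ1, hκ2, mod_mod_add, mod_mod_add]
            exact h3
          rw [mem_coe, mem_sigma]
          refine ⟨mem_inter.mpr ⟨hs, ?_⟩, mem_inter.mpr ⟨ht, ?_⟩⟩
          · unfold X3
            rw [mem_filter, mem_range]
            exact ⟨(HC K).1 _ hs, q.2.2, ht, q.1, hr, h4⟩
          · unfold O1
            rw [mem_filter, mem_range]
            exact ⟨(HC K').1 _ ht, q.1, hr, h4⟩
        · intro q hq q' hq' h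
          rw [mem_coe, mem_filter, mem_product, mem_product] at hq hq'
          obtain ⟨⟨hr, hs, ht⟩, h3⟩ := hq
          obtain ⟨⟨hr', hs', ht'⟩, h3'⟩ := hq'
          have ha : q.2.1 = q'.2.1 := congrArg Sigma.fst h
          have hb : q.2.2 = q'.2.2 := by
            have := congrArg (fun z : (Sigma fun _ : ℕ => ℕ) => z.2) h
            exact this
          refine Prod.ext ?_ (Prod.ext ha hb)
          rw [ha, hb] at h3
          have h5 : 2 ^ (w K - (w K' + hc K')) *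
              ((q.1 + 2 ^ hc K * q'.2.1 + κ) % 2 ^ (K - w K)) =
            2 ^ (w K - (w K' + hc K')) *
              ((q'.1 + 2 ^ hc K * q'.2.1 + κ) % 2 ^ (K - w K)) := by omega
          have h6 := Nat.eq_of_mul_eq_mul_left (by positivity) h5
          rw [e] at h6
          exact (digits_uniq (HN.Rlt _ _ hok _ hr) (HN.Rlt _ _ hok _ hr') ((HC K).1 _ hs')
            ((HC K).1 _ hs') h6).1
      refine e1.trans ?_
      rw [card_sigma]
      have e2 : ∀ s ∈ TK K ∩ X3 w hc ew R TK K K' κ1 κ2 ν,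
          (TK K' ∩ O1 w hc ew R K' K κ1 κ2 ν s).card ≤ 8 + A := by
        intro s hs
        have hs1 := (HC K).1 s (mem_inter.mp hs).1
        refine bound_O1 HN HC hK' hKK h0 h1 h2 b2 b4 hνK' (hs1.trans_le
          (Nat.pow_le_pow_right (by norm_num) (by omega)))
      refine (sum_le_sum e2).trans ?_
      rw [sum_const, smul_eq_mul, mul_comm]
      unfold Mb
      exact Nat.mul_le_mul_left _ (bound_X3 HN HC hK' hKK h0 h1 h2 b1 b3 hνK b2 b4 hνK')
    · rw [card_eq_zero.mpr]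
      · exact Nat.zero_le _
      · rw [filter_eq_empty_iff]
        intro q hq h3
        have := hνb q
        omega
  far := fun K' hK' e b l hok h1 h2 κ κ' ν => by
    classical
    have hlen := HN.len K' hK'
    have hown := HN.own K' hK'
    have hexp := HN.exp K' hK'
    have hel := HN.oke e l hok
    set κ1 := κ % 2 ^ l with hκ1
    set κ2 := κ' % 2 ^ (K' - (w K' + hc K')) with hκ2
    set ν1 := ν % 2 ^ (b + l - (w K' + hc K')) with hν1
    have hκ1lt : κ1 < 2 ^ l := Nat.mod_lt _ (by positivity)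
    have hκ2lt : κ2 < 2 ^ (K' - (w K' + hc K')) := Nat.mod_lt _ (by positivity)
    have hν1lt : ν1 < 2 ^ (b + l - (w K' + hc K')) := Nat.mod_lt _ (by positivity)
    have hO : OF w hc R K' e b l κ1 κ2 ν1 ∈
        fam w hc ew R (fun I => if I < K' then TK I else ∅) K' (2 ^ L K') := by
      refine mem_fam_OF (by omega) (by omega) (by omega) ?_ ?_ ?_
      · exact hκ1lt.trans_le (Nat.pow_le_pow_right (by norm_num) (by omega))
      · exact hκ2lt.trans_le (Nat.pow_le_pow_right (by norm_num) (by omega))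
      · exact hν1lt.trans_le (Nat.pow_le_pow_right (by norm_num) (by omega))
    have e1 : ((R e l ×ˢ TK K').filter (fun q =>
      2 ^ (b - (w K' + hc K')) * ((q.1 + κ) % 2 ^ l) +
        (q.2 + κ') % 2 ^ (K' - (w K' + hc K')) ≡ ν [MOD 2 ^ (b + l - (w K' + hc K'))])).card ≤
        (TK K' ∩ OF w hc R K' e b l κ1 κ2 ν1).card := by
      apply card_le_card_of_injOn (fun q => q.2)
      · intro q hq
        rw [mem_coe, mem_filter, mem_product] at hq
        obtain ⟨⟨hr, ht⟩, h3⟩ := hq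
        rw [mem_coe, mem_inter]
        refine ⟨ht, ?_⟩
        unfold OF
        rw [mem_filter, mem_range]
        refine ⟨(HC K').1 _ ht, q.1, hr, ?_⟩
        rw [hκ1, hκ2, mod_mod_add, mod_mod_add]
        exact h3.trans (Nat.mod_modEq _ _).symm
      · intro q hq q' hq' h
        rw [mem_coe, mem_filter, mem_product] at hq hq'
        obtain ⟨⟨hr, ht⟩, h3⟩ := hq
        obtain ⟨⟨hr', ht'⟩, h3'⟩ := hq'
        simp only at h
        refine Prod.ext ?_ h
        rw [h] at h3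
        have h4 := Nat.ModEq.add_right_cancel' _ (h3.trans h3'.symm)
        have h5 : b + l - (w K' + hc K') = b - (w K' + hc K') + l := by omega
        rw [h5, pow_add] at h4
        have h6 := Nat.ModEq.mul_left_cancel' (by positivity) h4
        have h7 : (q.1 + κ) % 2 ^ l = (q'.1 + κ) % 2 ^ l :=
          Nat.ModEq.eq_of_lt_of_lt h6 (Nat.mod_lt _ (by positivity)) (Nat.mod_lt _ (by positivity))
        exact mod_add_inj (HN.Rlt _ _ hok _ hr) (HN.Rlt _ _ hok _ hr') h7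
    refine e1.trans ((own_bound HN hK' (HC K') hO (d := 0) (Nat.zero_le _)).trans ?_)
    refine Nat.add_le_add ?_ ?_
    · apply Nat.div_le_div_right
      have := card_OF (R := R) (κ := κ1) (κ' := κ2) (ν := ν1) (e := e) h1 h2
      calc 2 ^ (0 + 3) * (OF w hc R K' e b l κ1 κ2 ν1).card
          ≤ 2 ^ (0 + 3) * ((R e l).card * 2 ^ (K' - (b + l))) := Nat.mul_le_mul_left _ this
        _ = 8 * ((R e l).card * 2 ^ (K' - (b + l))) := by norm_num
    · rw [Nat.zero_add, Nat.div_one]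

end

end Pool.Agent.ETS.TKS
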