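import Mathlib
import Pool.Agent.Helper29.ETK.NearT

/-!
# E-T (MP_12a1af_nt), project T*: numerical facts about the windows of the schedule
-/

open Finset

namespace Pool.Agent.ETS.TKS

open Pool.Agent.Helper29.ETK

variable {c : ℕ}

/-- length of the composite part of the window of scale `K` -/
def hcW (c K : ℕ) : ℕ := if wcomp c K then nb c (wb c K) else 0

/-- index of its block width -/
def ewW (c K : ℕ) : ℕ := ep c (wb c K)

lemma Hb_mono' {s t : ℕ} (h : s ≤ t) : Hb c s ≤ Hb c t := by
  apply pow_le
  unfold j0 ep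
  have := Nat.div_le_div_right (c := 3) (lg_mono (c := c) h)
  omega

lemma Hb_pos' (c s : ℕ) : 0 < Hb c s := pow_pos' _ _

/-- the newborn size at a later position of the same window -/
lemma nb_le_of_lt (hc : 10 ≤ c) {w w' : ℕ} (h : w' ≤ w) (h2 : w < w' + 3 * Hb c w')
    (h3 : Hb c w' ≤ w') : nb c w ≤ Hb c w' := by
  have hp' := Hb_pos' c w'
  have hw0 : w ≠ 0 := by omega
  rcases le_or_gt (ep c w) (ep c w') with he | he
  · refine (nb_le_Hb c w).trans (pow_le c ?_)
    unfold j0
    omega
  · set e := ep c w with hedef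
    have h4 : CC c ^ (3 * e) ≤ w := le_pow_lg_div c hw0
    have h5 : w' < CC c ^ (3 * e) := by
      by_contra hn
      push Not at hn
      have h6 := le_lg hc hn
      have h7 : e ≤ ep c w' := by
        unfold ep
        omega
      omega
    have h6 : CC c ^ (3 * e - 1) ≤ w' := by
      have h7 : CC c ^ (3 * e) = CC c ^ (3 * e - 1) * CC c := by
        rw [← pow_succ]
        congr 1
        omega
      have h8 := CC_ge hc
      have h9 : CC c ^ (3 * e - 1) * 4 ≤ CC c ^ (3 * e - 1) * CC c :=
        Nat.mul_le_mul_left _ (by omega)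
      omega
    have h7 : e ≤ ep c w' + 1 := by
      have h8 := le_lg hc h6
      unfold ep
      omega
    have h8 : Hb c w' = CC c ^ (e + 7) := by
      unfold Hb j0
      congr 1
      omega
    have h9 : CC c ^ (e + 8) = CC c ^ (e + 7) * CC c := pow_succ _ _
    have h10 := CC_ge hc
    have h11 : CC c ^ (e + 7) * 3 ≤ CC c ^ (e + 7) * CC c := Nat.mul_le_mul_left _ (by omega)
    have h12 : jn c w = e + 7 := by
      unfold jn j0
      rw [← hedef, if_pos (by omega)]
      omega
    unfold nb
    rw [h12, h8]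

/-- **facts about one window** -/
structure WinF (c K : ℕ) : Prop where
  a1 : wb c K + 2 * Hb c (wb c K - 1) ≤ K
  a2 : K < wb c K + 3 * Hb c (wb c K)
  a3 : Hb c (wb c K) ≤ Hb c K
  a4 : Hb c K ≤ CC c * Hb c (wb c K - 1)
  a5 : 1024 * Gq c (epo c K) ≤ Hb c (wb c K - 1)
  a6 : Hb c (wb c K - 1) ≤ Hb c (wb c K)
  a7 : Hb c (wb c K) ≤ wb c K
  a8 : 1024 ≤ Hb c (wb c K - 1)
  a9 : nb c (wb c K) ≤ Hb c (wb c K - 1)

lemma winF (hc : 10 ≤ c) {K : ℕ} (hE : 6 ≤ epo c K) : WinF c K := by
  have h2 := lt_wb_add hc hE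
  have h7 := Hb_le_wb hc hE
  have hlg := lg_wb hc hE
  have hlarge := wb_large hc hE
  have hlK := lg_of_epo (c := c) (t := K) rfl (by omega)
  have h8 : 1024 ≤ Hb c (wb c K - 1) := by
    unfold Hb j0
    calc 1024 ≤ CC c := CC_ge hc
      _ = CC c ^ 1 := (pow_one _).symm
      _ ≤ _ := pow_le c (by omega)
  have h8' : 1024 ≤ Hb c (wb c K) := h8.trans (Hb_mono' (by omega))
  have hlpred : lg c K - 2 ≤ lg c (wb c K - 1) := by
    apply le_lg hc
    have e1 : CC c ^ (lg c K - 1) = CC c ^ (lg c K - 2) * CC c := by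
      rw [← pow_succ]; congr 1; omega
    have e2 := CC_ge hc
    have e3 := pow_pos' c (lg c K - 2)
    have e4 : CC c ^ (lg c K - 2) * 2 ≤ CC c ^ (lg c K - 2) * CC c :=
      Nat.mul_le_mul_left _ (by omega)
    omega
  refine ⟨wb_add_le hc hE, h2, Hb_mono' (wb_le hc hE), ?_, ?_, Hb_mono' (by omega), h7, h8, ?_⟩
  · have e1 : CC c * Hb c (wb c K - 1) = CC c ^ (j0 c (wb c K - 1) + 1) := by
      unfold Hb; rw [pow_succ]; ring
    rw [e1]
    unfold Hb
    apply pow_le
    unfold j0 ep
    omega
  · have e1 := G_le_nb hc (K := K) (b := wb c K - 1) (by omega) (by omega)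
    have e2 := nb_le_Hb c (wb c K - 1)
    omega
  · refine nb_le_of_lt hc (by omega) (by omega) ?_
    have e1 : Hb c (wb c K - 1) ≤ CC c ^ 8 * CC c ^ (lg c (wb c K - 1) / 3) := by
      unfold Hb j0 ep; rw [pow_add, mul_comm]
    have e3 : Hb c (wb c K - 1) = CC c ^ (lg c (wb c K - 1) / 3 + 8) := rfl
    rw [e3]
    refine (pow_le c ?_).trans (lg_le c (s := wb c K - 1) (by omega))
    omega

/-- the composite state -/
lemma comp_spec {K : ℕ} (h : 0 < hcW c K) :
    wcomp c K ∧ hcW c K = nb c (wb c K) ∧ wb c K + 3 * Hb c (wb c K) ≤ K + 2 * Gq c (epo c K) := by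
  unfold hcW at h ⊢
  split_ifs at h ⊢ with hw
  · exact ⟨hw, rfl, hw⟩
  · omega

lemma plain_or (K : ℕ) : hcW c K = 0 ∨ 0 < hcW c K := Nat.eq_zero_or_pos _

/-- length of the random part -/
lemma rho_ge (hc : 10 ≤ c) {K : ℕ} (hE : 6 ≤ epo c K) :
    wb c K + hcW c K + Hb c (wb c K - 1) ≤ K ∧ 3 * hcW c K ≤ 2 * (K - (wb c K + hcW c K)) := by
  have F := winF hc hE
  rcases plain_or (c := c) K with h | h
  · rw [h]
    have := F.a1
    omega
  · obtain ⟨-, h1, h2⟩ := comp_spec h
    have a2 := F.a2
    have a5 := F.a5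
    have a6 := F.a6
    have a9 := F.a9
    omega

/-- the condition for composite windows -/
lemma zfact (hc : 10 ≤ c) {K K' : ℕ} (hE' : 6 ≤ epo c K') (hE : 6 ≤ epo c K) (_ : K' < K)
    (h0 : 0 < hcW c K) (h1 : wb c K' + hcW c K' ≤ wb c K) (h2 : wb c K ≤ K') :
    Hb c (wb c K' - 1) / 4 ≤ K' - (wb c K' + hcW c K') ∧
    min (hcW c K - hcW c K / 2) (K' - wb c K) + Hb c (wb c K' - 1) / 4 ≤
      K' - (wb c K' + hcW c K') - (K' - (wb c K' + hcW c K')) / 2 := by
  have F' := winF hc hE'
  have F := winF hc hE
  have hr := rho_ge hc hE'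
  obtain ⟨-, k1, k2⟩ := comp_spec h0
  have a1 := F'.a1
  have a2 := F'.a2
  have a5 := F'.a5
  have a6 := F'.a6
  have a7 := F'.a7
  have a8 := F'.a8
  have b9 := F.a9
  refine ⟨by omega, ?_⟩
  have hmin : min (hcW c K - hcW c K / 2) (K' - wb c K) ≤ hcW c K - hcW c K / 2 := min_le_left _ _
  have hmin2 : min (hcW c K - hcW c K / 2) (K' - wb c K) ≤ K' - wb c K := min_le_right _ _
  rcases Nat.eq_or_lt_of_le (show wb c K' ≤ wb c K by omega) with heq | hlt
  · -- same window
    have hz : hcW c K' = 0 := by omega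
    rw [← heq] at b9 k1
    rw [hz] at hr ⊢
    rw [k1] at hmin ⊢
    omega
  · have hnb : nb c (wb c K) ≤ Hb c (wb c K') := nb_le_of_lt hc hlt.le (by omega) a7
    rcases plain_or (c := c) K' with hp | hp
    · rw [hp] at hr ⊢
      rcases Nat.eq_or_lt_of_le a6 with h6 | h6
      · omega
      · -- `wb c K'` is a power
        have hlgw := lg_wb hc hE'
        have hep : ep c (wb c K' - 1) < ep c (wb c K') := by
          by_contra hn
          push Not at hn
          have : Hb c (wb c K') ≤ Hb c (wb c K' - 1) := pow_le c (by unfold j0; omega)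
          omega
        set e := ep c (wb c K') with he
        have hw0 : wb c K' ≠ 0 := by
          intro h; rw [h] at hlgw; simp [lg] at hlgw
        have e1 : CC c ^ (3 * e) ≤ wb c K' := le_pow_lg_div c hw0
        have e2 : wb c K' - 1 < CC c ^ (3 * e) := by
          by_contra hn
          push Not at hn
          have h7 := le_lg hc hn
          have h8 : e ≤ ep c (wb c K' - 1) := by unfold ep; omega
          omega
        have e3 : wb c K' = CC c ^ (3 * e) := by omega
        have e4 : Hb c (wb c K') = CC c ^ (e + 8) := rfl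
        have e5 : CC c ^ (e + 8) = CC c ^ (e + 7) * CC c := pow_succ _ _
        have e6 := CC_ge hc
        have e7 : CC c ^ (e + 7) * 1024 ≤ CC c ^ (e + 7) * CC c := Nat.mul_le_mul_left _ e6
        have e8 : Hb c (wb c K' - 1) ≤ CC c ^ (e + 7) := pow_le c (by unfold j0; omega)
        have e9 : nb c (wb c K') = CC c ^ (e + 7) := by
          unfold nb jn
          rw [← he]
          have hj : j0 c (wb c K') = e + 8 := rfl
          rw [hj, if_pos (by omega)]
          congr 1
        have e10 := F'.a9
        have e11 : Hb c (wb c K' - 1) = CC c ^ (e + 7) := by omega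
        rcases lt_or_ge (wb c K) (wb c K' + Hb c (wb c K')) with h8 | h8
        · -- small cells
          have hepw : ep c (wb c K) = e := by
            have h9 : ep c (wb c K') ≤ ep c (wb c K) := by
              unfold ep
              exact Nat.div_le_div_right (lg_mono hlt.le)
            have h10 : lg c (wb c K) < 3 * e + 3 := by
              apply lg_lt (by omega)
              rw [e4, e3] at h8
              refine h8.trans_le ?_
              have h11 : CC c ^ (3 * e + 3) = CC c ^ (3 * e + 2) * CC c := pow_succ _ _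
              have h12 : CC c ^ (3 * e + 2) * 2 ≤ CC c ^ (3 * e + 2) * CC c :=
                Nat.mul_le_mul_left _ (by omega)
              have h13 : CC c ^ (3 * e) ≤ CC c ^ (3 * e + 2) := pow_le c (by omega)
              have h14 : CC c ^ (e + 8) ≤ CC c ^ (3 * e + 2) := by
                apply pow_le
                have : 18 ≤ lg c (wb c K') := hlgw
                have h15 : 6 ≤ e := by rw [he]; unfold ep; omega
                omega
              omega
            have h11 : ep c (wb c K) < e + 1 := by unfold ep; omega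
            omega
          have hnb2 : nb c (wb c K) = CC c ^ (e + 7) := by
            unfold nb jn
            have hj : j0 c (wb c K) = e + 8 := by unfold j0; rw [hepw]
            rw [hj, hepw, if_pos (by rw [e4, e3] at h8; exact h8)]
            congr 1
          omega
        · omega
    · obtain ⟨-, m1, m2⟩ := comp_spec hp
      have a9 := F'.a9
      omega

end Pool.Agent.ETS.TKS
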