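import Mathlib
import Pool.Agent.Helper84.ET.TK5
import Pool.Agent.Helper84.ET.TK6
import Pool.Agent.Helper3.ETF.MkCodes

/-!
# E-T (MP_12a1af_nt), project T*: the random sets of the windows of the schedule
-/

open Finset

namespace Pool.Agent.ETS.TKS

open Pool.Agent.Helper29.ETK
open Pool.Agent.Helper83.ET (mk)

variable {c : ℕ}

/-- admissible lengths of `RTh` regions -/
def okW (c e l : ℕ) : Prop := 20 ≤ e ∧ CC c ^ e ≤ l ∧ CC c ^ e ∣ l

lemma Rs_mk (TK TK' : ℕ → Finset ℕ) (e l : ℕ) : Rs (mk (CC c) TK) e l = Rs (mk (CC c) TK') e l := rfl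

lemma Rs_lt (C : Codes) (e l : ℕ) : ∀ r ∈ Rs C e l, r < 2 ^ l := by
  intro r hr
  unfold Rs at hr
  rw [mem_image] at hr
  obtain ⟨q, -, rfl⟩ := hr
  exact Nat.mod_lt _ (by positivity)

lemma Rs_card (hc : 20 ≤ c) (TK : ℕ → Finset ℕ) {e l : ℕ} (h : okW c e l) :
    (Rs (mk (CC c) TK) e l).card ^ 2 ≤ 2 ^ l := by
  obtain ⟨h1, h2, h3⟩ := h
  have h4 := (Pool.Agent.ETP.regCodes_mk (TK := TK) hc).RTh e 0 l h1
    (by rw [Nat.zero_add]; exact h2) (by rw [Nat.sub_zero]; exact h3)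
  have h5 : (Rs (mk (CC c) TK) e l).card ≤ ((Reg.RTh e 0 l).V (mk (CC c) TK)).card := by
    unfold Rs
    exact card_image_le
  exact (Nat.pow_le_pow_left h5 2).trans h4.1

/-- an exponential beats the window -/
lemma big_pow (hc : 10 ≤ c) {K : ℕ} (hE : 6 ≤ epo c K) : K < 2 ^ Hb c K := by
  have h1 := lt_lg hc K
  refine h1.trans_le ?_
  unfold Hb
  set x := c * (lg c K + 1) with hx
  have h2 : CC c ^ (lg c K + 1) = 2 ^ x := by
    unfold CC; rw [← pow_mul]
  rw [h2]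
  apply Nat.pow_le_pow_right (by norm_num)
  set y := c * (ep c K + 1) with hy
  have h3 : x ≤ 3 * y := by
    rw [hx, hy, ← mul_assoc, mul_comm 3 c, mul_assoc]
    apply Nat.mul_le_mul_left
    unfold ep
    omega
  have h4 : y + 3 ≤ c * j0 c K := by
    have : j0 c K = ep c K + 1 + 7 := by unfold j0; omega
    rw [this, mul_add, ← hy]
    omega
  have h5 : CC c ^ j0 c K = 2 ^ (c * j0 c K) := by unfold CC; rw [← pow_mul]
  rw [h5]
  calc x ≤ 3 * y := h3
    _ ≤ 8 * 2 ^ y := by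
      have := (Nat.lt_two_pow_self (n := y)).le
      omega
    _ = 2 ^ (y + 3) := by rw [pow_add]; ring
    _ ≤ _ := Nat.pow_le_pow_right (by norm_num) h4

lemma pow_div_big (hc : 10 ≤ c) {x : ℕ} (hx : 7 ≤ x) :
    48 * CC c ^ (x + 1) ≤ 2 ^ (CC c ^ x / 4) := by
  have h1 : CC c ^ x / 4 = 2 ^ (c * x - 2) := by
    unfold CC
    rw [← pow_mul]
    have h2 : c * x = c * x - 2 + 2 := by
      have : 10 * 7 ≤ c * x := Nat.mul_le_mul hc hx
      omega
    conv_lhs => rw [h2]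
    rw [pow_add]
    norm_num
  rw [h1]
  have h3 : CC c ^ (x + 1) = 2 ^ (c * (x + 1)) := by unfold CC; rw [← pow_mul]
  rw [h3]
  have hcx : 10 * 7 ≤ c * x := Nat.mul_le_mul hc hx
  have h4 : c * (x + 1) ≤ 2 * (c * x) := by
    have : c ≤ c * x := Nat.le_mul_of_pos_right _ (by omega)
    rw [mul_add]
    omega
  have h5 : 6 + 2 * (c * x) ≤ 2 ^ (c * x - 2) := by
    obtain ⟨n, hn⟩ : ∃ n, c * x - 2 = n + 6 := ⟨c * x - 2 - 6, by omega⟩
    rw [hn, pow_add]
    have h6 := (Nat.lt_two_pow_self (n := n)).le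
    have h7 : c * x = n + 8 := by omega
    rw [h7]
    omega
  calc 48 * 2 ^ (c * (x + 1)) ≤ 2 ^ 6 * 2 ^ (c * (x + 1)) := Nat.mul_le_mul_right _ (by norm_num)
    _ = 2 ^ (6 + c * (x + 1)) := (pow_add _ _ _).symm
    _ ≤ 2 ^ (2 ^ (c * x - 2)) := Nat.pow_le_pow_right (by norm_num) (by omega)

/-- **the numerical facts** -/
theorem wnum (hc : 20 ≤ c) (TK : ℕ → Finset ℕ) {K1 : ℕ} (hK1 : CC c ^ 64 ≤ K1) :
    WNum (wb c) (hcW c) (ewW c) (Rs (mk (CC c) TK)) (okW c) K1 (fun K => 6 * Hb c K)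
      (1000 * CC c) := by
  have hc10 : 10 ≤ c := by omega
  have hlg : ∀ K, K1 ≤ K → 64 ≤ lg c K := fun K hK => le_lg hc10 (hK1.trans hK)
  have hE : ∀ K, K1 ≤ K → 6 ≤ epo c K := fun K hK => by
    have := hlg K hK
    unfold epo
    omega
  have hrho : ∀ K, K1 ≤ K → wb c K + hcW c K + Hb c (wb c K - 1) ≤ K := fun K hK =>
    (rho_ge hc10 (hE K hK)).1
  have hdiv : ∀ K, K1 ≤ K → 48 * Hb c K ≤ 48 * CC c * Hb c (wb c K - 1) := fun K hK => by
    rw [mul_assoc]
    exact Nat.mul_le_mul_left _ (winF hc10 (hE K hK)).a4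
  refine
    { len := fun K hK => by have := hrho K hK; omega
      own := fun K hK => ?_
      exp := fun K hK => ?_
      three := fun K hK => ?_
      Rlt := fun e l _ => Rs_lt _ e l
      Rcard := fun e l h => Rs_card hc TK h
      oke := fun e l h => ?_
      okc := fun K hK h0 => ?_
      pair := fun K K' hK' hKK h2 => ?_
      r1 := fun K K' hK' hKK h2 => ?_
      r2 := fun K hK => ?_
      r3 := fun K hK => (rho_ge hc10 (hE K hK)).2
      z := fun K K' hK' hKK h0 h1 h2 => ?_ }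
  · have F := winF hc10 (hE K hK)
    have a2 := F.a2
    have a3 := F.a3
    have := Hb_pos' c K
    show K + 1 ≤ wb c K + hcW c K + 6 * Hb c K
    omega
  · refine (big_pow hc10 (hE K hK)).trans_le (Nat.pow_le_pow_right (by norm_num) ?_)
    show Hb c K ≤ 6 * Hb c K
    omega
  · have := Hb_pos' c K
    show 3 ≤ 6 * Hb c K
    omega
  · obtain ⟨-, h2, -⟩ := h
    have h3 : e < CC c ^ e := Nat.lt_pow_self (one_lt_CC hc10)
    omega
  · -- composite windows are admissible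
    obtain ⟨-, k1, -⟩ := comp_spec h0
    have hl := hlg K hK
    have hw := wb_large hc10 (hE K hK)
    have hlw := le_lg hc10 hw
    have h4 := ep_lt_jn c (wb c K)
    unfold okW ewW
    rw [k1]
    refine ⟨by unfold ep; omega, pow_le c (by omega), pow_dvd' c (by omega)⟩
  · -- pairs
    have hK : K1 ≤ K := by omega
    have F := winF hc10 (hE K hK)
    have F' := winF hc10 (hE K' hK')
    have a2 := F.a2
    have a2' := F'.a2
    have a3' := F'.a3
    have m1 : Hb c (wb c K) ≤ Hb c K' := Hb_mono' h2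
    have m2 : Hb c K' ≤ Hb c K := Hb_mono' hKK.le
    have hp := Hb_pos' c K'
    refine ⟨?_, ?_, ?_⟩
    · show K + 1 ≤ wb c K' + hcW c K' + 6 * Hb c K'
      omega
    · show K + 1 ≤ wb c K' + hcW c K' + 6 * Hb c K
      omega
    · show K < 2 ^ (6 * Hb c K')
      have h5 := big_pow hc10 (hE K' hK')
      have h6 : 2 ^ (6 * Hb c K') = 2 ^ Hb c K' * 2 ^ (5 * Hb c K') := by
        rw [← pow_add]; congr 1; omega
      have h7 := (Nat.lt_two_pow_self (n := 5 * Hb c K')).le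
      have h8 : 1 ≤ 2 ^ Hb c K' := Nat.one_le_two_pow
      rw [h6]
      calc K < K' + 3 * Hb c K' := by omega
        _ ≤ 2 ^ Hb c K' * 1 + 1 * (3 * Hb c K') := by omega
        _ ≤ 2 ^ Hb c K' * 1 + 2 ^ Hb c K' * (3 * Hb c K') :=
          Nat.add_le_add_left (Nat.mul_le_mul_right _ h8) _
        _ = 2 ^ Hb c K' * (1 + 3 * Hb c K') := by ring
        _ ≤ 2 ^ Hb c K' * 2 ^ (5 * Hb c K') := Nat.mul_le_mul_left _ (by omega)
  · -- r1
    have hK : K1 ≤ K := by omega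
    have F := winF hc10 (hE K hK)
    have h3 := hrho K hK
    have m2 : Hb c K' ≤ Hb c K := Hb_mono' hKK.le
    have a4 := F.a4
    show 8 * (6 * Hb c K') ≤ 2 ^ ((K - (wb c K + hcW c K)) / 4)
    have h4 : Hb c K = CC c ^ (ep c K + 7) * CC c := by
      unfold Hb j0; rw [← pow_succ]
    have h5 : CC c ^ (ep c K + 7) ≤ Hb c (wb c K - 1) := by
      rw [h4, mul_comm] at a4
      exact Nat.le_of_mul_le_mul_left a4 (CC_pos c)
    have h6 := pow_div_big hc10 (x := ep c K + 7) (by omega)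
    rw [pow_succ, ← h4] at h6
    calc 8 * (6 * Hb c K') ≤ 48 * Hb c K := by omega
      _ ≤ 2 ^ (CC c ^ (ep c K + 7) / 4) := h6
      _ ≤ _ := Nat.pow_le_pow_right (by norm_num) (Nat.div_le_div_right (by omega))
  · -- r2
    have h3 := hrho K hK
    have h4 := hdiv K hK
    show 8 * (6 * Hb c K) ≤ 1000 * CC c * ((K - (wb c K + hcW c K)) / 8 + 1)
    calc 8 * (6 * Hb c K) = 48 * Hb c K := by ring
      _ ≤ 48 * CC c * Hb c (wb c K - 1) := h4
      _ ≤ 48 * CC c * (8 * ((K - (wb c K + hcW c K)) / 8 + 1)) :=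
        Nat.mul_le_mul_left _ (by omega)
      _ = 384 * CC c * ((K - (wb c K + hcW c K)) / 8 + 1) := by ring
      _ ≤ _ := Nat.mul_le_mul_right _ (Nat.mul_le_mul_right _ (by norm_num))
  · -- z
    have hK : K1 ≤ K := by omega
    obtain ⟨z1, z2⟩ := zfact hc10 (hE K' hK') (hE K hK) hKK h0 h1 h2
    refine ⟨Hb c (wb c K' - 1) / 4, z1, z2, ?_⟩
    have h4 := hdiv K' hK'
    show 8 * (6 * Hb c K') ≤ 1000 * CC c * (Hb c (wb c K' - 1) / 4 + 1)
    calc 8 * (6 * Hb c K') = 48 * Hb c K' := by ring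
      _ ≤ 48 * CC c * Hb c (wb c K' - 1) := h4
      _ ≤ 48 * CC c * (4 * (Hb c (wb c K' - 1) / 4 + 1)) := Nat.mul_le_mul_left _ (by omega)
      _ = 192 * CC c * (Hb c (wb c K' - 1) / 4 + 1) := by ring
      _ ≤ _ := Nat.mul_le_mul_right _ (Nat.mul_le_mul_right _ (by norm_num))

/-- **the random sets of the windows exist** -/
theorem exists_TKGood (hc : 20 ≤ c) : ∃ TK : ℕ → Finset ℕ, ∀ K1, CC c ^ 64 ≤ K1 →
    TKGood (wb c) (hcW c) (ewW c) (Rs (mk (CC c) TK)) (okW c) K1 (fun K => 8 * (6 * Hb c K))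
      (Mb (fun K => 6 * Hb c K) (1000 * CC c)) TK := by
  obtain ⟨TK, hTK⟩ := exists_TK (wb c) (hcW c) (ewW c) (Rs (mk (CC c) (fun _ => ∅)))
    (fun K => 6 * Hb c K)
  refine ⟨TK, fun K1 hK1 => ?_⟩
  exact tkGood (wnum hc TK hK1) hTK

end Pool.Agent.ETS.TKS
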