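import Mathlib
import Pool.Agent.Helper84.ET.TK7
import Pool.Agent.Helper86.ET.WinFin

/-!
# E-T (MP_12a1af_nt), project T*: the windows, final form
-/

open Finset

namespace Pool.Agent.ETS.TKS

open Pool.Agent.Helper29.ETK
open Pool.Agent.Helper83.ET (mk)
open Pool.Agent.ETP (WinGood)

variable {c : ℕ}

/-- **The random sets of the windows, with all their properties.** -/
theorem exists_win (hc : 20 ≤ c) : ∃ (b : ℕ) (TK : ℕ → Finset ℕ), ∀ K1, CC c ^ 64 ≤ K1 →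
    TKGood (wb c) (hcS c) (ewS c) (Rs (mk (CC c) TK))
      (fun e l => 20 ≤ e ∧ CC c ^ e ≤ l ∧ CC c ^ e ∣ l) K1 (fun K => 8 * (6 * Hb c K))
      (Mb (fun K => 6 * Hb c K) (1000 * CC c)) TK ∧ WinGood b c K1 (mk (CC c) TK) := by
  obtain ⟨TK, h⟩ := exists_TKGood hc
  refine ⟨264 * ((8 + 1000 * CC c) * (136 + 1000 * CC c + 16 * 6 * CC c ^ 8)), TK,
    fun K1 hK1 => ⟨h K1 hK1, ?_⟩⟩
  exact winGood_of hc hK1 (h K1 hK1) le_rfl

end Pool.Agent.ETS.TKS
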